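import Mathlib
import Pool.Agent.H207.GF.An4

/-! Project GP (helper207, MP_28f8a1_an): polynomials with small filled Julia sets in analytic
families. Part 1: fields which kill given rows. -/

set_option autoImplicit false

open Topology Filter Metric Set

namespace Pool.Agent.H207.GP

variable {V : Type} [NormedAddCommGroup V] [NormedSpace ℂ V]

theorem dual_gen [FiniteDimensional ℂ V] {ι : Type} [Fintype ι] [DecidableEq ι]
    {f : ι → V →L[ℂ] ℂ} (hf : LinearIndependent ℂ f) :
    ∃ v : ι → V, ∀ a b, f a (v b) = if a = b then 1 else 0 := by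
  let e : ι ≃ Fin (Fintype.card ι) := Fintype.equivFin ι
  obtain ⟨v, hv⟩ := Pool.Agent.H207.GF.exists_dual (f := fun a => f (e.symm a))
    (hf.comp _ e.symm.injective)
  refine ⟨fun b => v (e b), fun a b => ?_⟩
  have h := hv (e a) (e b)
  simp only [Equiv.symm_apply_apply] at h
  rw [h]
  simp only [EmbeddingLike.apply_eq_iff_eq]

theorem card_gen [FiniteDimensional ℂ V] {ι : Type} [Fintype ι] {f : ι → V →L[ℂ] ℂ}
    (hf : LinearIndependent ℂ f) : Fintype.card ι ≤ Module.finrank ℂ V := by
  let e : ι ≃ Fin (Fintype.card ι) := Fintype.equivFin ι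
  exact Pool.Agent.H207.GF.indep_card (f := fun a => f (e.symm a)) (hf.comp _ e.symm.injective)

section

variable {ι : Type} [Fintype ι] [DecidableEq ι]

/-- the matrix of the rows `r` in the directions `v` -/
noncomputable def Mt (r : ι → V →L[ℂ] ℂ) (v : ι → V) : Matrix ι ι ℂ := Matrix.of fun a b => r a (v b)

theorem Mt_dual {r : ι → V →L[ℂ] ℂ} {v : ι → V} (h : ∀ a b, r a (v b) = if a = b then 1 else 0) :
    (Mt r v).det = 1 := by
  have : Mt r v = 1 := by
    ext a b
    simp only [Mt, Matrix.of_apply, Matrix.one_apply]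
    exact h a b
  rw [this, Matrix.det_one]

theorem Mt_li {r : ι → V →L[ℂ] ℂ} {v : ι → V} (h : (Mt r v).det ≠ 0) : LinearIndependent ℂ r := by
  rw [Fintype.linearIndependent_iff]
  intro c hc
  have e1 : Matrix.vecMul c (Mt r v) = 0 := by
    ext b
    have e2 := congrArg (fun f : V →L[ℂ] ℂ => f (v b)) hc
    simp only [_root_.sum_apply, _root_.smul_apply, smul_eq_mul, _root_.zero_apply] at e2
    simp only [Matrix.vecMul, dotProduct, Mt, Matrix.of_apply, Pi.zero_apply]
    exact e2
  have e3 := Matrix.eq_zero_of_vecMul_eq_zero h e1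
  exact fun a => congrFun e3 a

/-- the field which kills the rows `r` -/
noncomputable def Fd (r : ι → V →L[ℂ] ℂ) (v : ι → V) (w : V) : V :=
  (Mt r v).det • w - ∑ b, (∑ a, (Mt r v).adjugate b a * r a w) • v b

theorem Fd_kill (r : ι → V →L[ℂ] ℂ) (v : ι → V) (w : V) (a : ι) : r a (Fd r v w) = 0 := by
  unfold Fd
  rw [map_sub, map_smul, map_sum]
  simp only [map_smul, smul_eq_mul]
  have hadj : ∀ e, ∑ b, r a (v b) * (Mt r v).adjugate b e = if a = e then (Mt r v).det else 0 := by
    intro e
    have h1 := congrFun (congrFun (Matrix.mul_adjugate (Mt r v)) a) e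
    rw [Matrix.mul_apply, Matrix.smul_apply, Matrix.one_apply, smul_eq_mul, mul_ite, mul_one,
      mul_zero] at h1
    exact h1
  have h2 : ∑ b, (∑ e, (Mt r v).adjugate b e * r e w) * r a (v b) = (Mt r v).det * r a w := by
    calc ∑ b, (∑ e, (Mt r v).adjugate b e * r e w) * r a (v b)
        = ∑ e, (∑ b, r a (v b) * (Mt r v).adjugate b e) * r e w := by
          simp only [Finset.sum_mul]
          rw [Finset.sum_comm]
          refine Finset.sum_congr rfl fun e _ => Finset.sum_congr rfl fun b _ => by ring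
      _ = (Mt r v).det * r a w := by
          simp only [hadj, ite_mul, zero_mul, Finset.sum_ite_eq, Finset.mem_univ, if_true]
  rw [h2, sub_self]

theorem Fd_span {r : ι → V →L[ℂ] ℂ} (v : ι → V) (w : V) {g : V →L[ℂ] ℂ}
    (hg : g ∈ Submodule.span ℂ (Set.range r)) : g (Fd r v w) = 0 := by
  obtain ⟨c, rfl⟩ := (Submodule.mem_span_range_iff_exists_fun ℂ).1 hg
  rw [_root_.sum_apply]
  refine Finset.sum_eq_zero fun a _ => ?_
  rw [_root_.smul_apply, Fd_kill, smul_zero]

theorem Fd_ne {r : ι → V →L[ℂ] ℂ} {v : ι → V} {w : V} (hd : (Mt r v).det ≠ 0)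
    (hw : w ∉ Submodule.span ℂ (Set.range v)) : Fd r v w ≠ 0 := by
  intro h
  apply hw
  have h1 : (Mt r v).det • w = ∑ b, (∑ a, (Mt r v).adjugate b a * r a w) • v b := by
    unfold Fd at h
    exact sub_eq_zero.1 h
  have h2 : (Mt r v).det • w ∈ Submodule.span ℂ (Set.range v) := by
    rw [h1]
    refine Submodule.sum_mem _ fun b _ => Submodule.smul_mem _ _ (Submodule.subset_span ⟨b, rfl⟩)
  have h3 := Submodule.smul_mem _ ((Mt r v).det)⁻¹ h2
  rwa [smul_smul, inv_mul_cancel₀ hd, one_smul] at h3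

end

section

variable {ι : Type} [Fintype ι] [DecidableEq ι]

theorem Mt_diff {W : Type} [NormedAddCommGroup W] [NormedSpace ℂ W] {O : Set W}
    {r : ι → W → V →L[ℂ] ℂ} (hr : ∀ a u, DifferentiableOn ℂ (fun z => r a z u) O) (v : ι → V) :
    DifferentiableOn ℂ (fun z => (Mt (fun a => r a z) v).det) O := by
  apply Pool.Agent.W440.RE.JT.det_diff
  intro a b
  exact hr a (v b)

theorem Fd_diff {W : Type} [NormedAddCommGroup W] [NormedSpace ℂ W] {O : Set W}
    {r : ι → W → V →L[ℂ] ℂ} (hr : ∀ a u, DifferentiableOn ℂ (fun z => r a z u) O) (v : ι → V)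
    (w : V) : DifferentiableOn ℂ (fun z => Fd (fun a => r a z) v w) O := by
  have h2 : ∀ a b, DifferentiableOn ℂ (fun z => (Mt (fun a => r a z) v).adjugate b a) O := by
    intro a b
    simp only [Matrix.adjugate_apply]
    apply Pool.Agent.W440.RE.JT.det_diff
    intro i j
    by_cases hi : i = a
    · subst hi
      simp only [Matrix.updateRow_self]
      exact differentiableOn_const _
    · simp only [Matrix.updateRow_ne hi]
      exact hr i (v j)
  unfold Fd
  refine ((Mt_diff hr v).smul_const w).sub ?_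
  refine DifferentiableOn.fun_sum fun b _ => ?_
  refine DifferentiableOn.smul_const ?_ (v b)
  refine DifferentiableOn.fun_sum fun a _ => ?_
  exact (h2 a b).mul (hr a w)

end

/-- maximal independent sets of rows span -/
theorem span_of_max {ι₀ : Type} {r : ι₀ → V →L[ℂ] ℂ} {s : Set ι₀} {k : ι₀}
    (hs : LinearIndepOn ℂ r s) (hd : k ∈ s ∨ ¬ LinearIndepOn ℂ r (insert k s)) :
    r k ∈ Submodule.span ℂ (Set.range fun a : s => r a) := by
  have e : (Set.range fun a : s => r a) = r '' s := by
    ext x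
    constructor
    · rintro ⟨a, rfl⟩
      exact ⟨a, a.2, rfl⟩
    · rintro ⟨a, ha, rfl⟩
      exact ⟨⟨a, ha⟩, rfl⟩
  rw [e]
  by_cases hk : k ∈ s
  · exact Submodule.subset_span ⟨k, hk, rfl⟩
  · by_contra hcon
    rcases hd with hd | hd
    · exact hk hd
    · exact hd ((linearIndepOn_insert hk).2 ⟨hs, hcon⟩)

/-- there is a vector outside of the span of few vectors -/
theorem exists_out [FiniteDimensional ℂ V] {ι : Type} [Fintype ι] (v : ι → V)
    (h : Fintype.card ι < Module.finrank ℂ V) : ∃ w : V, w ∉ Submodule.span ℂ (Set.range v) := by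
  by_contra hcon
  push Not at hcon
  have h1 : Submodule.span ℂ (Set.range v) = ⊤ := by
    rw [Submodule.eq_top_iff']
    exact hcon
  have h2 := finrank_range_le_card (R := ℂ) v
  rw [Set.finrank, h1, finrank_top] at h2
  omega

end Pool.Agent.H207.GP
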