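import Mathlib
import Pool.Agent.H207.GP.Fld
import Pool.Graph.R_pool_sql_team_seeded_64922ed1.X167.Sh.B

/-! Project GP: the unknowns, the coordinates of the escaping critical points and their rows. -/

set_option autoImplicit false

open Topology Filter Metric Set Polynomial MeasureTheory
open Pool.Agent.H713R3.ZA Pool.Agent.H713R5.QJ
open Pool.Agent.X167.Sh (Esc)

namespace Pool.Agent.H207.GP

/-- the unknowns: a polynomial with marked critical points, and finitely many parameters -/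
abbrev BX (n : ℕ) (Q : Type) : Type := Option (Fin n) ⊕ Q → ℂ

section

variable {n : ℕ} {Q : Type}

/-- the polynomial -/
def px (z : BX n Q) : PE n := fun o => z (Sum.inl o)

/-- the parameters -/
def pt (z : BX n Q) : Q → ℂ := fun q => z (Sum.inr q)

theorem px_cont : Continuous (px : BX n Q → PE n) := continuous_pi fun o => continuous_apply _

theorem pt_cont : Continuous (pt : BX n Q → Q → ℂ) := continuous_pi fun o => continuous_apply _

/-- the pair -/
def pr (x : PE n) (t : Q → ℂ) : BX n Q := Sum.elim x t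

theorem px_pr (x : PE n) (t : Q → ℂ) : px (pr x t) = x := rfl

theorem pt_pr (x : PE n) (t : Q → ℂ) : pt (pr x t) = t := rfl

theorem pr_px (z : BX n Q) : pr (px z) (pt z) = z := by
  funext o
  cases o <;> rfl

theorem pr_cont : Continuous (fun p : PE n × (Q → ℂ) => (pr p.1 p.2 : BX n Q)) := by
  refine continuous_pi fun o => ?_
  cases o with
  | inl o => exact (continuous_apply o).comp continuous_fst
  | inr q => exact (continuous_apply q).comp continuous_snd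

variable [Fintype Q]

theorem px_diff : Differentiable ℂ (px : BX n Q → PE n) := by
  rw [differentiable_pi]
  exact fun o => differentiable_apply _

theorem pt_diff : Differentiable ℂ (pt : BX n Q → Q → ℂ) := by
  rw [differentiable_pi]
  exact fun o => differentiable_apply _

theorem pr_diff (x : PE n) : Differentiable ℂ (fun t : Q → ℂ => (pr x t : BX n Q)) := by
  rw [differentiable_pi]
  intro o
  cases o with
  | inl o => exact differentiable_const _
  | inr q => exact differentiable_apply q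

end

section

variable {Q : Type} [Fintype Q]

/-- the coordinate of an escaping critical point -/
noncomputable def DD (a : ℂ) (n : ℕ) (φ : PE n × ℂ → ℂ) (M : ℕ) (i : Fin n) (z : BX n Q) : ℂ :=
  φ (px z, (fx a n (px z))^[M] (px z (some i)))

theorem crit_diff' (a : ℂ) (n M : ℕ) (i : Fin n) :
    Differentiable ℂ (fun z : BX n Q => (fx a n (px z))^[M] (px z (some i))) :=
  Differentiable.comp (g := fun x : PE n => (fx a n x)^[M] (x (some i))) (f := px)
    (Pool.Agent.H713R3.ZA.crit_diff a n M i) px_diff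

theorem DD_diff {a : ℂ} {n M : ℕ} {B R C₁ R₁ R₃ : ℝ} {ψ φ : PE n × ℂ → ℂ}
    (hb : BO a n B R C₁ R₁ R₃ ψ φ) (i : Fin n) {Ω : Set (BX n Q)}
    (h1 : ∀ z ∈ Ω, px z ∈ ball (0 : PE n) B)
    (h2 : ∀ z ∈ Ω, R₃ < ‖(fx a n (px z))^[M] (px z (some i))‖) :
    DifferentiableOn ℂ (DD a n φ M i) Ω := by
  have h3 := gdp_phi hb (M := M) i (Ω := px '' Ω) (by rintro _ ⟨z, hz, rfl⟩; exact h1 z hz)
    (by rintro _ ⟨z, hz, rfl⟩; exact h2 z hz)
  exact DifferentiableOn.comp (g := fun x : PE n => φ (x, (fx a n x)^[M] (x (some i)))) (f := px)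
    h3 px_diff.differentiableOn fun z hz => ⟨z, hz, rfl⟩

theorem far_open' (a : ℂ) (n M : ℕ) (B R₃ : ℝ) (i : Fin n) :
    IsOpen {z : BX n Q | px z ∈ ball (0 : PE n) B ∧
      R₃ < ‖(fx a n (px z))^[M] (px z (some i))‖} :=
  (isOpen_ball.preimage px_cont).inter
    (isOpen_lt continuous_const (crit_diff' a n M i).continuous.norm)

theorem DD_succ {a : ℂ} {n M : ℕ} {B R C₁ R₁ R₃ : ℝ} {ψ φ : PE n × ℂ → ℂ}
    (hb : BO a n B R C₁ R₁ R₃ ψ φ) {i : Fin n} {z : BX n Q} (h1 : px z ∈ ball (0 : PE n) B)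
    (h2 : R₃ < ‖(fx a n (px z))^[M] (px z (some i))‖) :
    DD a n φ (M + 1) i z = QQ a n (DD a n φ M i z) := by
  unfold DD
  rw [Function.iterate_succ_apply']
  exact φ_fx hb h1 h2 (large_of_large hb h1 h2 1)

theorem DD_iter {a : ℂ} {n M : ℕ} {B R C₁ R₁ R₃ : ℝ} {ψ φ : PE n × ℂ → ℂ}
    (hb : BO a n B R C₁ R₁ R₃ ψ φ) {i : Fin n} {z : BX n Q} (h1 : px z ∈ ball (0 : PE n) B)
    (h2 : R₃ < ‖(fx a n (px z))^[M] (px z (some i))‖) (k : ℕ) :
    φ (px z, (fx a n (px z))^[k] ((fx a n (px z))^[M] (px z (some i)))) =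
      (QQ a n)^[k] (DD a n φ M i z) := φ_iter hb h1 h2 k

theorem far_succ {a : ℂ} {n M : ℕ} {B R C₁ R₁ R₃ : ℝ} {ψ φ : PE n × ℂ → ℂ}
    (hb : BO a n B R C₁ R₁ R₃ ψ φ) {x : PE n} {u : ℂ} (h1 : x ∈ ball (0 : PE n) B)
    (h2 : R₃ < ‖(fx a n x)^[M] u‖) {M' : ℕ} (hM : M ≤ M') : R₃ < ‖(fx a n x)^[M'] u‖ := by
  have h3 := large_of_large hb h1 h2 (M' - M)
  rw [← Function.iterate_add_apply, Nat.sub_add_cancel hM] at h3
  exact h3

theorem DD_large {a : ℂ} {n M : ℕ} {B R C₁ R₁ R₃ : ℝ} {ψ φ : PE n × ℂ → ℂ}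
    (hb : BO a n B R C₁ R₁ R₃ ψ φ) {i : Fin n} {z : BX n Q} (h1 : px z ∈ ball (0 : PE n) B)
    (h2 : R₃ < ‖(fx a n (px z))^[M] (px z (some i))‖) : R₁ < ‖DD a n φ M i z‖ := φ_norm hb h1 h2

theorem row_succ {a : ℂ} {n M : ℕ} {B R C₁ R₁ R₃ : ℝ} {ψ φ : PE n × ℂ → ℂ}
    (hb : BO a n B R C₁ R₁ R₃ ψ φ) {i : Fin n} {z : BX n Q} (h1 : px z ∈ ball (0 : PE n) B)
    (h2 : R₃ < ‖(fx a n (px z))^[M] (px z (some i))‖) :
    fderiv ℂ (DD a n φ (M + 1) i) z =
      (a * ((n + 1 : ℕ) * DD a n φ M i z ^ n)) • fderiv ℂ (DD a n φ M i) z := by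
  have ho := far_open' (Q := Q) a n M B R₃ i
  have hz : z ∈ {z : BX n Q | px z ∈ ball (0 : PE n) B ∧
      R₃ < ‖(fx a n (px z))^[M] (px z (some i))‖} := ⟨h1, h2⟩
  have h3 : DD a n φ (M + 1) i =ᶠ[𝓝 z] fun z => QQ a n (DD a n φ M i z) := by
    filter_upwards [ho.mem_nhds hz] with w hw
    exact DD_succ hb hw.1 hw.2
  rw [h3.fderiv_eq]
  have h4 : HasFDerivAt (DD a n φ M i) (fderiv ℂ (DD a n φ M i) z) z :=
    ((DD_diff hb i (fun z hz => hz.1) (fun z hz => hz.2)).differentiableAt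
      (ho.mem_nhds hz)).hasFDerivAt
  have h5 : HasDerivAt (QQ a n) (a * ((n + 1 : ℕ) * DD a n φ M i z ^ n)) (DD a n φ M i z) := by
    have h6 := (hasDerivAt_pow (n + 1) (DD a n φ M i z)).const_mul a
    rw [Nat.add_sub_cancel] at h6
    exact h6
  exact (h5.comp_hasFDerivAt z h4).fderiv

/-- the rows -/
noncomputable def Rw {ρ : ℕ} (a : ℂ) (n : ℕ) (φ : PE n × ℂ → ℂ) (h : Fin ρ → BX n Q → ℂ) (M : ℕ)
    (k : Fin ρ ⊕ Fin n) (z : BX n Q) : BX n Q →L[ℂ] ℂ :=
  match k with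
  | Sum.inl k => fderiv ℂ (h k) z
  | Sum.inr i => fderiv ℂ (DD a n φ M i) z

/-- the set of indices of the rows -/
def js (ρ : ℕ) {n : ℕ} (J : Finset (Fin n)) : Set (Fin ρ ⊕ Fin n) :=
  {k | ∀ i, k = Sum.inr i → i ∈ J}

theorem inl_js {ρ n : ℕ} (J : Finset (Fin n)) (k : Fin ρ) : Sum.inl k ∈ js ρ J := by
  intro i hi
  cases hi

theorem inr_js {ρ n : ℕ} {J : Finset (Fin n)} {i : Fin n} : Sum.inr i ∈ js ρ J ↔ i ∈ J := by
  constructor
  · intro h
    exact h i rfl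
  · rintro h j hj
    cases hj
    exact h

theorem js_insert {ρ n : ℕ} (J : Finset (Fin n)) (i : Fin n) :
    js ρ (insert i J) = insert (Sum.inr i) (js ρ J) := by
  ext k
  rcases k with k | j
  · simp [inl_js]
  · rw [inr_js, Finset.mem_insert, Set.mem_insert_iff, inr_js]
    simp

theorem card_js {ρ n : ℕ} (J : Finset (Fin n)) [Fintype (js ρ J)] :
    Fintype.card (js ρ J) = ρ + J.card := by
  classical
  have e : js ρ J ≃ Fin ρ ⊕ J :=
    { toFun := fun k => match k with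
        | ⟨Sum.inl k, _⟩ => Sum.inl k
        | ⟨Sum.inr i, h⟩ => Sum.inr ⟨i, inr_js.1 h⟩
      invFun := fun k => match k with
        | Sum.inl k => ⟨Sum.inl k, inl_js J k⟩
        | Sum.inr i => ⟨Sum.inr i.1, inr_js.2 i.2⟩
      left_inv := by
        rintro ⟨k | i, h⟩ <;> rfl
      right_inv := by
        rintro (k | i) <;> rfl }
  rw [Fintype.card_congr e, Fintype.card_sum, Fintype.card_fin, Fintype.card_coe]

/-- independence of the rows -/
def Ind {ρ : ℕ} (a : ℂ) (n : ℕ) (φ : PE n × ℂ → ℂ) (h : Fin ρ → BX n Q → ℂ) (M : ℕ)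
    (J : Finset (Fin n)) (z : BX n Q) : Prop :=
  LinearIndepOn ℂ (fun k => Rw a n φ h M k z) (js ρ J)

theorem Ind_succ {a : ℂ} {n M ρ : ℕ} {B R C₁ R₁ R₃ : ℝ} {ψ φ : PE n × ℂ → ℂ} (ha : a ≠ 0)
    (hb : BO a n B R C₁ R₁ R₃ ψ φ) {h : Fin ρ → BX n Q → ℂ} {J : Finset (Fin n)} {z : BX n Q}
    (h1 : px z ∈ ball (0 : PE n) B)
    (h2 : ∀ i ∈ J, R₃ < ‖(fx a n (px z))^[M] (px z (some i))‖) (hI : Ind a n φ h M J z) :
    Ind a n φ h (M + 1) J z := by
  classical
  have hR1 : 0 < R₁ := by have := hb.hR; have := hb.hC; have := hb.hR₁; linarith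
  have hu : ∀ k : js ρ J, ∃ u : ℂˣ, Rw a n φ h (M + 1) k z = u • Rw a n φ h M k z := by
    rintro ⟨k | i, hk⟩
    · exact ⟨1, by rw [one_smul]; rfl⟩
    · have hi := inr_js.1 hk
      have h3 := row_succ hb h1 (h2 i hi)
      have h4 := DD_large hb h1 (h2 i hi)
      have h5 : DD a n φ M i z ≠ 0 := by
        intro h0
        rw [h0, norm_zero] at h4
        linarith
      have h6 : a * ((n + 1 : ℕ) * DD a n φ M i z ^ n) ≠ 0 :=
        mul_ne_zero ha (mul_ne_zero (Nat.cast_ne_zero.2 (Nat.succ_ne_zero n)) (pow_ne_zero _ h5))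
      exact ⟨Units.mk0 _ h6, h3⟩
  choose u hu using hu
  have h7 : LinearIndependent ℂ (u • fun k : js ρ J => Rw a n φ h M k z) :=
    LinearIndependent.units_smul hI u
  have h8 : (u • fun k : js ρ J => Rw a n φ h M k z) =
      fun k : js ρ J => Rw a n φ h (M + 1) k z := by
    funext k
    exact (hu k).symm
  rw [h8] at h7
  exact h7

theorem Ind_le {a : ℂ} {n M ρ : ℕ} {B R C₁ R₁ R₃ : ℝ} {ψ φ : PE n × ℂ → ℂ} (ha : a ≠ 0)
    (hb : BO a n B R C₁ R₁ R₃ ψ φ) {h : Fin ρ → BX n Q → ℂ} {J : Finset (Fin n)} {z : BX n Q}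
    (h1 : px z ∈ ball (0 : PE n) B)
    (h2 : ∀ i ∈ J, R₃ < ‖(fx a n (px z))^[M] (px z (some i))‖) (hI : Ind a n φ h M J z)
    {M' : ℕ} (hM : M ≤ M') : Ind a n φ h M' J z := by
  induction M', hM using Nat.le_induction with
  | base => exact hI
  | succ k hk ih => exact Ind_succ ha hb h1 (fun i hi => far_succ hb h1 (h2 i hi) hk) ih

theorem Ind_empty {a : ℂ} {n ρ : ℕ} {φ : PE n × ℂ → ℂ} {h : Fin ρ → BX n Q → ℂ} (M : ℕ)
    {z : BX n Q} (hli : LinearIndependent ℂ fun k => fderiv ℂ (h k) z) :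
    Ind a n φ h M ∅ z := by
  have h1 : js ρ (∅ : Finset (Fin n)) = Set.range Sum.inl := by
    ext k
    rcases k with k | i
    · simp [inl_js]
    · rw [inr_js]
      simp
  unfold Ind
  rw [h1]
  exact (linearIndepOn_range_iff Sum.inl_injective _).2 hli

theorem Ind_h {a : ℂ} {n ρ : ℕ} {φ : PE n × ℂ → ℂ} {h : Fin ρ → BX n Q → ℂ} {M : ℕ}
    {J : Finset (Fin n)} {z : BX n Q} (hI : Ind a n φ h M J z) :
    LinearIndependent ℂ fun k => fderiv ℂ (h k) z := by
  have h1 := LinearIndependent.comp (v := fun k : js ρ J => Rw a n φ h M k z) hI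
    (fun k : Fin ρ => ⟨Sum.inl k, inl_js J k⟩) (by
      intro k k' hk
      simpa using hk)
  exact h1

end

end Pool.Agent.H207.GP
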