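import Mathlib
import Pool.Agent.H207.GP.Base

/-! Project GP: the setting, curves in the manifold and the starting point. -/

set_option autoImplicit false

open Topology Filter Metric Set Polynomial MeasureTheory
open Pool.Agent.H713R3.ZA Pool.Agent.H713R5.QJ
open Pool.Agent.H207.GF (Wp Wp_zero Wp_open Wp_closed nodisc)

namespace Pool.Agent.H207.GP

/-- the domain -/
def OD {n : ℕ} {Q : Type} (Ox : Set (PE n)) (Ot : Set (Q → ℂ)) : Set (BX n Q) :=
  {z | px z ∈ Ox ∧ pt z ∈ Ot}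

/-- the setting -/
structure St (a : ℂ) (n : ℕ) {Q : Type} [Fintype Q] {k ρ : ℕ} (B : ℝ) (Ox : Set (PE n))
    (Ot KT : Set (Q → ℂ)) (E : Fin k → BX n Q → ℂ) (h : Fin ρ → BX n Q → ℂ) (b : ℂ) : Prop where
  Oxo : IsOpen Ox
  OxB : Ox ⊆ ball 0 B
  Oto : IsOpen Ot
  KTc : IsCompact KT
  KTO : KT ⊆ Ot
  Ed : ∀ j, DifferentiableOn ℂ (E j) (OD Ox Ot)
  hd : ∀ j, DifferentiableOn ℂ (h j) (OD Ox Ot)
  prop : ∀ z ∈ OD Ox Ot, (∀ j, E j z = 0) → pt z ∈ KT
  cen : ∀ z ∈ OD Ox Ot, (∀ j, E j z = 0) → cf a n n (px z) = b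

theorem OD_open {n : ℕ} {Q : Type} {Ox : Set (PE n)} {Ot : Set (Q → ℂ)} (h1 : IsOpen Ox)
    (h2 : IsOpen Ot) : IsOpen (OD Ox Ot) :=
  (h1.preimage px_cont).inter (h2.preimage pt_cont)

/-- functions with zero derivative in the direction of a curve are constant along the curve -/
theorem along {V : Type} [NormedAddCommGroup V] [NormedSpace ℂ V] {ρ : ℝ} {γ γ' : ℂ → V} {G : Set V}
    {g : V → ℂ} (hG : IsOpen G) (hg : DifferentiableOn ℂ g G)
    (hγ : ∀ t ∈ ball (0 : ℂ) ρ, HasDerivAt γ (γ' t) t) (hm : ∀ t ∈ ball (0 : ℂ) ρ, γ t ∈ G)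
    (h0 : ∀ t ∈ ball (0 : ℂ) ρ, fderiv ℂ g (γ t) (γ' t) = 0) :
    ∀ t ∈ ball (0 : ℂ) ρ, g (γ t) = g (γ 0) := by
  refine gdp_const (f := fun t => g (γ t)) ?_
  intro t ht
  have h1 := (hg.differentiableAt (hG.mem_nhds (hm t ht))).hasFDerivAt.comp_hasDerivAt t (hγ t ht)
  rw [h0 t ht] at h1
  exact h1

/-- integral curves of fields which kill the functions `h` stay in the manifold -/
theorem flowW (hF : StFLOW) {n k ρ : ℕ} {Q : Type} [Fintype Q] {O : Set (BX n Q)}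
    {E : Fin k → BX n Q → ℂ} {h : Fin ρ → BX n Q → ℂ} (hO : IsOpen O)
    (hd : ∀ j, DifferentiableOn ℂ (h j) O) {X : BX n Q → BX n Q} {G : Set (BX n Q)}
    (hG : IsOpen G) (hGO : G ⊆ O) (hX : DifferentiableOn ℂ X G)
    (hXh : ∀ z ∈ G, ∀ j, fderiv ℂ (h j) z (X z) = 0) {p : BX n Q} (hp : p ∈ Wp O E h)
    (hpG : p ∈ G) :
    ∃ (r : ℝ) (γ : ℂ → BX n Q), 0 < r ∧ γ 0 = p ∧ ∀ t ∈ ball (0 : ℂ) r, γ t ∈ G ∧
      HasDerivAt γ (X (γ t)) t ∧ γ t ∈ Wp O E h := by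
  obtain ⟨ε, hε, hb⟩ := Metric.eventually_nhds_iff_ball.1 (Wp_open hO hd hp)
  have hG' : IsOpen (G ∩ ball p ε) := hG.inter isOpen_ball
  have hpG' : p ∈ G ∩ ball p ε := ⟨hpG, mem_ball_self hε⟩
  obtain ⟨r, hr, hflow⟩ := hF (BX n Q) (G ∩ ball p ε) {p} X hG' isCompact_singleton
    (singleton_subset_iff.mpr hpG') (hX.mono inter_subset_left)
  obtain ⟨γ, hγ0, hγ⟩ := hflow p rfl
  refine ⟨r, γ, hr, hγ0, fun t ht => ⟨(hγ t ht).1.1, (hγ t ht).2, ?_⟩⟩
  refine hb _ (hγ t ht).1.2 fun j => ?_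
  have h1 := along (g := h j) hG ((hd j).mono hGO) (fun s hs => (hγ s hs).2)
    (fun s hs => (hγ s hs).1.1) (fun s hs => hXh _ (hγ s hs).1.1 j) t ht
  rw [h1, hγ0]
  exact hp.2.1 j

theorem fiber_fin {a : ℂ} (ha : a ≠ 0) (n : ℕ) (x₁ : PE n) :
    {x : PE n | ∀ j : Fin (n + 2), cf a n j x = cf a n j x₁}.Finite := by
  have hne : dfam a n x₁ ≠ 0 := by
    unfold dfam
    refine mul_ne_zero ?_ (Finset.prod_ne_zero_iff.2 fun i _ => X_sub_C_ne_zero _)
    exact C_ne_zero.2 (mul_ne_zero ha (Nat.cast_add_one_ne_zero n))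
  have hfin : ∀ o : Option (Fin n), (({x₁ none} : Set ℂ) ∪ (dfam a n x₁).rootSet ℂ).Finite :=
    fun _ => (finite_singleton _).union (rootSet_finite _ _)
  refine (Set.Finite.pi' hfin).subset ?_
  intro x hx
  have hfam : fam a n x = fam a n x₁ := by
    ext j
    rcases Nat.lt_or_ge j (n + 2) with hj | hj
    · exact hx ⟨j, hj⟩
    · rw [coeff_eq_zero_of_natDegree_lt (by have := natDegree_fam_le a n x; omega),
        coeff_eq_zero_of_natDegree_lt (by have := natDegree_fam_le a n x₁; omega)]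
  intro o
  rcases o with _ | i
  · left
    have h1 := congrArg (fun p : ℂ[X] => p.coeff 0) hfam
    simp only [coeff_fam_zero] at h1
    exact h1
  · right
    rw [mem_rootSet]
    refine ⟨hne, ?_⟩
    have h1 := congrArg derivative hfam
    rw [derivative_fam, derivative_fam] at h1
    rw [← h1]
    unfold dfam
    rw [map_mul, map_prod, Finset.prod_eq_zero (Finset.mem_univ i), mul_zero]
    simp

/-- along every field some coefficient moves, at suitable points near the given one -/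
theorem startS (hF : StFLOW) {a : ℂ} {n k ρ : ℕ} {Q : Type} [Fintype Q] {B : ℝ} {Ox : Set (PE n)}
    {Ot KT : Set (Q → ℂ)} {E : Fin k → BX n Q → ℂ} {h : Fin ρ → BX n Q → ℂ} {b : ℂ}
    (S : St a n B Ox Ot KT E h b) (ha : a ≠ 0) {z₁ : BX n Q} (hz₁ : z₁ ∈ Wp (OD Ox Ot) E h)
    {G : Set (BX n Q)} (hG : IsOpen G) (hGO : G ⊆ OD Ox Ot) (hzG : z₁ ∈ G)
    {X : BX n Q → BX n Q} (hX : DifferentiableOn ℂ X G)
    (hXh : ∀ z ∈ G, ∀ j, fderiv ℂ (h j) z (X z) = 0) (hX0 : X z₁ ≠ 0) :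
    ∃ z₂ ∈ G, z₂ ∈ Wp (OD Ox Ot) E h ∧
      ∃ j : Fin (n + 2), fderiv ℂ (fun z : BX n Q => cf a n j (px z)) z₂ (X z₂) ≠ 0 := by
  classical
  by_contra hcon
  push Not at hcon
  have hO := OD_open (n := n) S.Oxo S.Oto
  obtain ⟨r, γ, hr, hγ0, hγ⟩ := flowW hF hO S.hd hG hGO hX hXh hz₁ hzG
  have h0r : (0 : ℂ) ∈ ball (0 : ℂ) r := mem_ball_self hr
  have hγc : ContinuousOn γ (ball 0 r) := fun t ht =>
    (hγ t ht).2.1.continuousAt.continuousWithinAt
  have hγd : DifferentiableOn ℂ γ (ball 0 r) := fun t ht =>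
    (hγ t ht).2.1.differentiableAt.differentiableWithinAt
  -- the coefficients are constant
  have hcoef : ∀ t ∈ ball (0 : ℂ) r, ∀ j : Fin (n + 2),
      cf a n j (px (γ t)) = cf a n j (px z₁) := by
    intro t ht j
    have h1 := along (g := fun z : BX n Q => cf a n j (px z)) isOpen_univ
      ((cf_diff a n j).comp px_diff).differentiableOn (fun s hs => (hγ s hs).2.1)
      (fun _ _ => mem_univ _) (fun s hs => hcon _ (hγ s hs).1 (hγ s hs).2.2 j) t ht
    rw [hγ0] at h1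
    exact h1
  -- the polynomial is constant
  have hpx : ∀ t ∈ ball (0 : ℂ) r, px (γ t) = px z₁ := by
    have hfin := fiber_fin ha n (px z₁)
    obtain ⟨y, -, hy⟩ := (convex_ball (0 : ℂ) r).isPreconnected.eqOn_const_of_mapsTo
      hfin.isDiscrete (f := fun t => px (γ t))
      (px_cont.comp_continuousOn hγc) (fun t ht => hcoef t ht) ⟨px z₁, fun j => rfl⟩
    intro t ht
    have e1 : px (γ t) = y := hy ht
    have e2 : px (γ 0) = y := hy h0r
    rw [e1, ← e2, hγ0]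
  -- the parameters
  set x₁ := px z₁ with hx₁
  have hz₁O : z₁ ∈ OD Ox Ot := hGO hzG
  have hx₁O : x₁ ∈ Ox := hz₁O.1
  let E' : Fin k → (Q → ℂ) → ℂ := fun j t => E j (pr x₁ t)
  have hE' : ∀ j, DifferentiableOn ℂ (E' j) Ot := fun j =>
    (S.Ed j).comp (pr_diff x₁).differentiableOn fun t ht => ⟨hx₁O, ht⟩
  have hcomp : IsCompact {t : Q → ℂ | t ∈ Ot ∧ ∀ j, E' j t = 0} := by
    have h1 : {t : Q → ℂ | t ∈ Ot ∧ ∀ j, E' j t = 0} = KT ∩ (fun t j => E' j t) ⁻¹' {0} := by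
      ext t
      constructor
      · rintro ⟨h1, h2⟩
        exact ⟨S.prop (pr x₁ t) ⟨hx₁O, h1⟩ h2, funext h2⟩
      · rintro ⟨h1, h2⟩
        exact ⟨S.KTO h1, fun j => congrFun h2 j⟩
    rw [h1]
    apply S.KTc.of_isClosed_subset _ inter_subset_left
    apply ContinuousOn.preimage_isClosed_of_isClosed _ S.KTc.isClosed isClosed_singleton
    exact continuousOn_pi.2 fun j => (hE' j).continuousOn.mono S.KTO
  have hptd : DifferentiableOn ℂ (fun t => pt (γ t)) (ball 0 r) :=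
    DifferentiableOn.comp (g := (pt : BX n Q → Q → ℂ)) (f := γ) (t := univ)
      pt_diff.differentiableOn hγd (fun _ _ => mem_univ _)
  have hdisc := nodisc (E := E') S.Oto hE' hcomp (γ := fun t => pt (γ t)) hr hptd (by
      intro t ht
      refine ⟨(hGO (hγ t ht).1).2, fun j => ?_⟩
      have h1 : pr x₁ (pt (γ t)) = γ t := by
        rw [← hpx t ht]
        exact pr_px _
      show E j (pr x₁ (pt (γ t))) = 0
      rw [h1]
      exact Wp_zero (hγ t ht).2.2 j)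
  apply hX0
  have hd0 : HasDerivAt γ (X z₁) 0 := by
    have := (hγ 0 h0r).2.1
    rwa [hγ0] at this
  have e1 : pt (X z₁) = 0 := by
    have h1 : HasDerivAt (fun t => pt (γ t)) (pt (X z₁)) 0 := by
      rw [hasDerivAt_pi]
      intro q
      exact (hasDerivAt_pi.1 hd0) (Sum.inr q)
    rw [← h1.deriv]
    exact hdisc
  have e2 : px (X z₁) = 0 := by
    have h1 : HasDerivAt (fun t => px (γ t)) (px (X z₁)) 0 := by
      rw [hasDerivAt_pi]
      intro o
      exact (hasDerivAt_pi.1 hd0) (Sum.inl o)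
    have h2 : (fun t => px (γ t)) =ᶠ[𝓝 0] fun _ => x₁ := by
      filter_upwards [ball_mem_nhds (0 : ℂ) hr] with t ht
      exact hpx t ht
    exact (h1.congr_of_eventuallyEq h2.symm).unique (hasDerivAt_const (0 : ℂ) x₁)
  rw [← pr_px (X z₁), e1, e2]
  funext o
  cases o <;> rfl

end Pool.Agent.H207.GP
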