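import Mathlib
import Pool.Agent.H207.GP.Start

/-! Project GP: the step. -/

set_option autoImplicit false

open Topology Filter Metric Set Polynomial MeasureTheory
open Pool.Agent.H713R3.ZA Pool.Agent.H713R5.QJ
open Pool.Agent.H207.GF (Wp Wp_zero Wp_open Wp_closed)
open Pool.Agent.X167.Sh (Esc GDE BE BE_sub BE_fin BE_lim notEsc_sub usc rfp BE_eq)

namespace Pool.Agent.H207.GP

/-- the constants -/
structure GG (a : ℂ) (n : ℕ) (B R C₁ R₁ R₃ : ℝ) (ψ φ : PE n × ℂ → ℂ) (c₀ : ℝ) : Prop where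
  ha : a ≠ 0
  hn : 1 ≤ n
  hB : 0 < B
  hb : BO a n B R C₁ R₁ R₃ ψ φ
  hc : 0 < c₀
  gain : ∃ (R₄ R₅ rg : ℝ) (v : ℂ), R₃ + C₁ + 3 * C₁ < R₄ ∧ R₄ < R₅ ∧
    ball v rg ⊆ {z | R₄ < ‖z‖ ∧ ‖z‖ < R₅} ∧
    ∀ x ∈ ball (0 : PE n) B, ∀ y ∈ ball (0 : PE n) B,
      (fam a n x).coeff n = (fam a n y).coeff n →
      Pool.Agent.H713R4.RB.Gain (n + 1) R₄ R₅ v v rg c₀ (wv a n x) (wv a n y)

theorem exists_GG (H : HH) {a : ℂ} {n : ℕ} (ha : a ≠ 0) (hn : 1 ≤ n) {B : ℝ} (hB0 : 0 < B) :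
    ∃ (R C₁ R₁ R₃ : ℝ) (ψ φ : PE n × ℂ → ℂ) (c₀ : ℝ), GG a n B R C₁ R₁ R₃ ψ φ c₀ := by
  obtain ⟨R, C₁, R₁, R₃, ψ, φ, hb⟩ := exists_boett H.bsum H.inv ha hn hB0
  obtain ⟨R₄, R₅, rg, c₀, v, hR₄, hR₄0, hR₅, hrg, hc₀, hv, hgain⟩ :=
    H.gainp H.dic a n B (R₃ + C₁ + 3 * C₁) ha hn hB0
  exact ⟨R, C₁, R₁, R₃, ψ, φ, c₀, ha, hn, hB0, hb, hc₀, R₄, R₅, rg, v, hR₄, hR₅, hv, hgain⟩

/-- the derivative of a function along a field -/
theorem fderiv_field_diff {I : Type} [Fintype I] [DecidableEq I] {g : (I → ℂ) → ℂ}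
    {O : Set (I → ℂ)} (hO : IsOpen O) (hg : DifferentiableOn ℂ g O) {X : (I → ℂ) → (I → ℂ)}
    (hX : DifferentiableOn ℂ X O) : DifferentiableOn ℂ (fun z => fderiv ℂ g z (X z)) O := by
  have h1 : (fun z => fderiv ℂ g z (X z)) =
      fun z => ∑ i, X z i * fderiv ℂ g z (Pi.single i 1) := by
    funext z
    have h2 : ∀ (f : (I → ℂ) →L[ℂ] ℂ) (u : I → ℂ), f u = ∑ i, u i * f (Pi.single i 1) := by
      intro f u
      conv_lhs => rw [pi_eq_sum_univ' u]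
      rw [map_sum]
      refine Finset.sum_congr rfl fun a _ => ?_
      rw [map_smul, smul_eq_mul]
    exact h2 _ _
  rw [h1]
  refine DifferentiableOn.fun_sum fun i _ => ?_
  exact (differentiableOn_pi.1 hX i).mul
    (Pool.Agent.Helper540.differentiableOn_fderiv_apply hO hg _)

theorem step (H : HH) {a : ℂ} {n k ρ : ℕ} {Q : Type} [Fintype Q] {B R C₁ R₁ R₃ c₀ : ℝ}
    {ψ φ : PE n × ℂ → ℂ} (hG : GG a n B R C₁ R₁ R₃ ψ φ c₀) {Ox : Set (PE n)}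
    {Ot KT : Set (Q → ℂ)} {E : Fin k → BX n Q → ℂ} {h : Fin ρ → BX n Q → ℂ} {b : ℂ}
    (S : St a n B Ox Ot KT E h b) {z₁ : BX n Q} (hz₁ : z₁ ∈ Wp (OD Ox Ot) E h)
    {J : Finset (Fin n)} {M₁ : ℕ}
    (hJ1 : ∀ i ∈ J, R₃ < ‖(fx a n (px z₁))^[M₁] (px z₁ (some i))‖)
    (hJ2 : Ind a n φ h M₁ J z₁) (hcard : ρ + J.card < n + 1 + Fintype.card Q) {n₀ : ℝ}
    (hn₀ : 0 < n₀) {Fc : Set (PE n)} (hFc : IsClosed Fc) (hOF : Ox ⊆ Fc)
    (hDB : ∀ x : PE n, Dl a n (px z₁) x ≤ n₀ → x ∈ ball (0 : PE n) B)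
    (hDF : ∀ x ∈ Fc, Dl a n (px z₁) x ≤ n₀ → x ∈ Ox)
    (hvol : volume {z : ℂ | ¬ Esc (fx a n (px z₁)) z} < ENNReal.ofReal (c₀ * n₀ / 16)) :
    ∃ z ∈ Wp (OD Ox Ot) E h, Dl a n (px z₁) (px z) < n₀ ∧
      volume {w : ℂ | ¬ Esc (fx a n (px z)) w} < ENNReal.ofReal (c₀ * n₀) ∧
      (∀ i : Fin n, Esc (fx a n (px z₁)) (px z₁ (some i)) →
        Esc (fx a n (px z)) (px z (some i))) ∧
      ((∃ j : Fin n, ¬ Esc (fx a n (px z₁)) (px z₁ (some j)) ∧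
        Esc (fx a n (px z)) (px z (some j))) ∨
        ∃ (J' : Finset (Fin n)) (M' : ℕ), J'.card = J.card + 1 ∧
          (∀ i ∈ J', R₃ < ‖(fx a n (px z))^[M'] (px z (some i))‖) ∧ Ind a n φ h M' J' z) := by
  classical
  obtain ⟨ha, hn, hB0, hb, hc₀, R₄, R₅, rg, v₀, hR₄, hR₅, hv₀, hgain⟩ := hG
  have hb1 := hb.hR; have hb2 := hb.hC; have hb3 := hb.hR₁; have hb4 := hb.hR₃
  set R₇ : ℝ := R₃ + C₁ with hR₇
  by_contra hno
  set x₁ := px z₁ with hx₁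
  have hOD : IsOpen (OD Ox Ot : Set (BX n Q)) := OD_open S.Oxo S.Oto
  have hz₁O : z₁ ∈ OD Ox Ot := hz₁.1
  have hx₁B : x₁ ∈ ball (0 : PE n) B := S.OxB hz₁O.1
  set Ee : Finset (Fin n) := Finset.univ.filter
    (fun i => Esc (fx a n x₁) (x₁ (some i))) with hEe
  have hEm : ∀ i, i ∈ Ee ↔ Esc (fx a n x₁) (x₁ (some i)) := by
    intro i; simp [hEe]
  have hmax1 : ∀ z ∈ Wp (OD Ox Ot) E h, Dl a n x₁ (px z) < n₀ →
      volume {w : ℂ | ¬ Esc (fx a n (px z)) w} < ENNReal.ofReal (c₀ * n₀) →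
      (∀ i ∈ Ee, Esc (fx a n (px z)) (px z (some i))) →
      ∀ j, j ∉ Ee → ¬ Esc (fx a n (px z)) (px z (some j)) := by
    intro z hz h1 h2 h3 j hj hE
    exact hno ⟨z, hz, h1, h2, fun i hi => h3 i ((hEm i).mpr hi),
      Or.inl ⟨j, fun h => hj ((hEm j).mpr h), hE⟩⟩
  have hmax2 : ∀ z ∈ Wp (OD Ox Ot) E h, Dl a n x₁ (px z) < n₀ →
      volume {w : ℂ | ¬ Esc (fx a n (px z)) w} < ENNReal.ofReal (c₀ * n₀) →
      (∀ i ∈ Ee, Esc (fx a n (px z)) (px z (some i))) →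
      ∀ (J' : Finset (Fin n)) (M' : ℕ), J'.card = J.card + 1 →
        (∀ i ∈ J', R₃ < ‖(fx a n (px z))^[M'] (px z (some i))‖) → ¬ Ind a n φ h M' J' z := by
    intro z hz h1 h2 h3 J' M' h4 h5 hI
    exact hno ⟨z, hz, h1, h2, fun i hi => h3 i ((hEm i).mpr hi), Or.inr ⟨J', M', h4, h5, hI⟩⟩
  set a₀ : ℝ := c₀ * n₀ / 16 with ha₀
  have ha₀0 : 0 < a₀ := by positivity
  set m₀ : ℝ := (volume {z : ℂ | ¬ Esc (fx a n x₁) z}).toReal with hm₀
  have hm₀0 : 0 ≤ m₀ := ENNReal.toReal_nonneg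
  have hm₀f : volume {z : ℂ | ¬ Esc (fx a n x₁) z} = ENNReal.ofReal m₀ :=
    (ENNReal.ofReal_toReal (hvol.trans_le le_top).ne).symm
  have hm₀a : m₀ < a₀ := by
    rw [hm₀f] at hvol
    exact (ENNReal.ofReal_lt_ofReal_iff ha₀0).mp hvol
  set η₀ : ℝ := (a₀ - m₀) / 3 with hη₀
  have hη₀0 : 0 < η₀ := by rw [hη₀]; linarith
  -- neighbourhood of good starting points
  set G₁ : Set (BX n Q) := {z | c₀ / 2 * Dl a n x₁ (px z) < a₀} with hG₁
  have hG₁o : IsOpen G₁ :=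
    isOpen_lt (continuous_const.mul ((Dl_continuous a n x₁).comp px_cont)) continuous_const
  have hx₁G : z₁ ∈ G₁ := by
    have h1 : Dl a n x₁ x₁ = 0 := by simp [Dl]
    show c₀ / 2 * Dl a n x₁ x₁ < a₀
    rw [h1, mul_zero]; exact ha₀0
  have hG₁D : ∀ z ∈ G₁, Dl a n x₁ (px z) < n₀ := by
    intro x h1
    have h2 : c₀ / 2 * Dl a n x₁ (px x) < c₀ * n₀ / 16 := h1
    by_contra hcon
    push Not at hcon
    nlinarith [mul_pos hc₀ hn₀]
  -- the time `M`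
  obtain ⟨M, hMM, hM⟩ : ∃ M : ℕ, M₁ ≤ M ∧
      ∀ i ∈ Ee, R₃ + 2 * C₁ < ‖(fx a n x₁)^[M] (x₁ (some i))‖ := by
    have h1 : ∀ᶠ M : ℕ in atTop, ∀ i ∈ Ee, R₃ + 2 * C₁ < ‖(fx a n x₁)^[M] (x₁ (some i))‖ := by
      rw [Filter.eventually_all_finset]
      intro i hi
      exact ((hEm i).mp hi).eventually (eventually_gt_atTop _)
    obtain ⟨M, h2, h3⟩ := ((eventually_ge_atTop M₁).and h1).exists
    exact ⟨M, h2, h3⟩
  have hJE : J ⊆ Ee := by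
    intro i hi
    rw [hEm]
    exact esc_of_large hb hx₁B (k := M₁) (by have := hJ1 i hi; linarith)
  have hJM : Ind a n φ h M J z₁ := Ind_le ha hb hx₁B hJ1 hJ2 hMM
  obtain ⟨σ, hσ, husc⟩ := usc hb hR₇.symm.le hx₁B hη₀0
  set Wn : Set (BX n Q) := (G₁ ∩ px ⁻¹' ball x₁ σ) ∩
    ⋂ i ∈ Ee, {z : BX n Q | R₃ + 2 * C₁ < ‖(fx a n (px z))^[M] (px z (some i))‖} with hWn
  have hWo : IsOpen Wn := by
    apply (hG₁o.inter (isOpen_ball.preimage px_cont)).inter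
    apply isOpen_biInter_finset
    intro i _
    exact isOpen_lt continuous_const (crit_diff' a n M i).continuous.norm
  have hx₁W : z₁ ∈ Wn := by
    refine ⟨⟨hx₁G, mem_ball_self hσ⟩, ?_⟩
    simp only [mem_iInter]
    exact hM
  have hWM : ∀ z ∈ Wn, ∀ i ∈ Ee, R₃ + 2 * C₁ < ‖(fx a n (px z))^[M] (px z (some i))‖ := by
    rintro x ⟨-, h⟩ i hi
    exact mem_iInter₂.mp h i hi
  have hWv : ∀ z ∈ Wn, volume {w : ℂ | ¬ Esc (fx a n (px z)) w} ≤ ENNReal.ofReal (m₀ + η₀) := by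
    rintro x ⟨⟨-, h⟩, -⟩
    calc volume {z : ℂ | ¬ Esc (fx a n (px x)) z}
        ≤ volume {z : ℂ | ¬ Esc (fx a n x₁) z} + ENNReal.ofReal η₀ := husc (px x) h
      _ = ENNReal.ofReal (m₀ + η₀) := by
        rw [hm₀f, ← ENNReal.ofReal_add hm₀0 hη₀0.le]
  -- the domain
  set O₂ : Set (BX n Q) := OD Ox Ot ∩
    ⋂ i ∈ Ee, {z : BX n Q | R₃ < ‖(fx a n (px z))^[M] (px z (some i))‖} with hO₂
  have hO₂o : IsOpen O₂ := by
    apply hOD.inter
    apply isOpen_biInter_finset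
    intro i _
    exact isOpen_lt continuous_const (crit_diff' a n M i).continuous.norm
  have hO₂M : ∀ z ∈ O₂, ∀ i ∈ Ee, R₃ < ‖(fx a n (px z))^[M] (px z (some i))‖ := by
    rintro x ⟨-, h⟩ i hi
    exact mem_iInter₂.mp h i hi
  have hO₂B : ∀ z ∈ O₂, px z ∈ ball (0 : PE n) B := fun z hz => S.OxB hz.1.1
  have hz₁O₂ : z₁ ∈ O₂ := by
    refine ⟨hz₁O, ?_⟩
    simp only [mem_iInter]
    intro i hi
    have := hM i hi
    show R₃ < ‖(fx a n x₁)^[M] (x₁ (some i))‖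
    linarith
  have hescE : ∀ z ∈ O₂, ∀ i ∈ Ee, Esc (fx a n (px z)) (px z (some i)) := by
    intro x hx i hi
    exact esc_of_large hb (hO₂B x hx) (k := M) (by have := hO₂M x hx i hi; linarith)
  -- the field
  haveI : Fintype (js ρ J) := Fintype.ofFinite _
  have hDDd : ∀ i ∈ Ee, DifferentiableOn ℂ (DD a n φ M i : BX n Q → ℂ) O₂ := fun i hi =>
    DD_diff hb i hO₂B fun z hz => hO₂M z hz i hi
  have hrr : ∀ (k : js ρ J) (u : BX n Q),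
      DifferentiableOn ℂ (fun z => Rw a n φ h M k z u) O₂ := by
    rintro ⟨k | i, hk⟩ u
    · exact Pool.Agent.Helper540.differentiableOn_fderiv_apply hO₂o
        ((S.hd k).mono inter_subset_left) u
    · exact Pool.Agent.Helper540.differentiableOn_fderiv_apply hO₂o
        (hDDd i (hJE (inr_js.1 hk))) u
  obtain ⟨v, hv⟩ := dual_gen (f := fun k : js ρ J => Rw a n φ h M k z₁) hJM
  obtain ⟨w, hw⟩ := exists_out v (by
    rw [card_js, Module.finrank_fintype_fun_eq_card, Fintype.card_sum, Fintype.card_option,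
      Fintype.card_fin]
    omega)
  set X : BX n Q → BX n Q := fun z => Fd (fun k : js ρ J => Rw a n φ h M k z) v w with hX
  have hXd : DifferentiableOn ℂ X O₂ := Fd_diff hrr v w
  set Δ : BX n Q → ℂ := fun z => (Mt (fun k : js ρ J => Rw a n φ h M k z) v).det with hΔ
  have hΔd : DifferentiableOn ℂ Δ O₂ := Mt_diff hrr v
  have hΔ1 : Δ z₁ = 1 := Mt_dual hv
  have hXk : ∀ (z : BX n Q) (k : js ρ J), Rw a n φ h M k z (X z) = 0 := fun z k =>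
    Fd_kill (fun k : js ρ J => Rw a n φ h M k z) v w k
  have hXh : ∀ (z : BX n Q) (j : Fin ρ), fderiv ℂ (h j) z (X z) = 0 := fun z j =>
    hXk z ⟨Sum.inl j, inl_js J j⟩
  have hXDJ : ∀ (z : BX n Q), ∀ i ∈ J, fderiv ℂ (DD a n φ M i) z (X z) = 0 := fun z i hi =>
    hXk z ⟨Sum.inr i, inr_js.2 hi⟩
  have hInd : ∀ z, Δ z ≠ 0 → Ind a n φ h M J z := fun z hz => Mt_li hz
  -- the starting point
  set G₀ : Set (BX n Q) := (O₂ ∩ Δ ⁻¹' {0}ᶜ) ∩ Wn with hG₀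
  have hG₀o : IsOpen G₀ :=
    (hΔd.continuousOn.isOpen_inter_preimage hO₂o isOpen_compl_singleton).inter hWo
  have hz₁G : z₁ ∈ G₀ := ⟨⟨hz₁O₂, by
    show Δ z₁ ∉ ({0} : Set ℂ)
    rw [hΔ1]
    exact one_ne_zero⟩, hx₁W⟩
  obtain ⟨z₂, hz₂G, hz₂W, j, hj⟩ := startS H.flow S ha hz₁ hG₀o (fun z hz => hz.1.1.1) hz₁G
    (hXd.mono fun z hz => hz.1.1) (fun z _ => hXh z)
    (Fd_ne (by rw [Mt_dual hv]; exact one_ne_zero) hw)
  have hz₂O₂ : z₂ ∈ O₂ := hz₂G.1.1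
  have hz₂Wn : z₂ ∈ Wn := hz₂G.2
  have hz₂Δ : Δ z₂ ≠ 0 := hz₂G.1.2
  set x₂ := px z₂ with hx₂
  have hx₂B : x₂ ∈ ball (0 : PE n) B := hO₂B z₂ hz₂O₂
  set f : BX n Q → ℂ := fun z => Δ z * fderiv ℂ (fun z : BX n Q => cf a n j (px z)) z (X z)
    with hf
  have hcfd : Differentiable ℂ (fun z : BX n Q => cf a n j (px z)) := (cf_diff a n j).comp px_diff
  have hfd : DifferentiableOn ℂ f O₂ := hΔd.mul (fderiv_field_diff hO₂o hcfd.differentiableOn hXd)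
  have hfz₂ : f z₂ ≠ 0 := mul_ne_zero hz₂Δ hj
  set F0 : Fin n → ℂ := fun i => φ (x₂, (fx a n x₂)^[M] (x₂ (some i))) with hF0
  have hF0n : ∀ i ∈ Ee, R₃ + C₁ < ‖F0 i‖ := by
    intro i hi
    have h1 := hWM z₂ hz₂Wn i hi
    have h2 := hb.φc x₂ hx₂B ((fx a n x₂)^[M] (x₂ (some i))) (by
      show R₃ < ‖(fx a n (px z₂))^[M] (px z₂ (some i))‖
      linarith)
    have h3 := norm_sub_norm_le ((fx a n x₂)^[M] (x₂ (some i)))
      (φ (x₂, (fx a n x₂)^[M] (x₂ (some i))))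
    rw [norm_sub_rev] at h3
    show R₃ + C₁ < ‖φ (x₂, (fx a n x₂)^[M] (x₂ (some i)))‖
    linarith
  obtain ⟨r₁, r₂, -, hKL⟩ := H.ko3 H.ko0 a n 1 B (1 / 2) (1 / 2) 1 ha hn one_pos hB0 (by norm_num)
    (by norm_num) one_pos
  have hr₁ := hKL.r1
  -- the leaf
  set L' : Set (PE n) := LL2 a n 1 M 0 ψ ∅ Ee id (fun _ => 0) F0 (fun _ => 0) x₁ n₀ (r₁ / 2) x₂
    with hL'
  obtain ⟨hL'c, hL'O⟩ := H.cptq H.ko0 H.ko1 H.ko2 H.ko3 H.nud a n 1 M 0 B R C₁ R₁ R₃ (1 / 2) (1 / 2)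
    r₁ r₂ ψ φ ∅ Ee id (fun _ => 0) F0 (fun _ => 0) x₁ x₂ n₀ (r₁ / 2) ha hn one_pos hb hKL (rfp n)
    (by simp) hF0n (fun x hx => hDB x hx) (by linarith)
  have hL'm : ∀ x : PE n, x ∈ L' ↔ Dl a n x₁ x ≤ n₀ ∧
      ∀ i ∈ Ee, (fx a n x)^[M] (x (some i)) = ψ (x, F0 i) := by
    intro x
    constructor
    · rintro ⟨h1, h2, -⟩
      exact ⟨h1, h2⟩
    · rintro ⟨h1, h2⟩
      exact ⟨h1, h2, by simp, by simp⟩
  set L : Set (BX n Q) := {z | px z ∈ L' ∩ Fc ∧ pt z ∈ KT} ∩ closure (Wp (OD Ox Ot) E h) with hL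
  have hLc : IsCompact L := by
    have h1 : {z : BX n Q | px z ∈ L' ∩ Fc ∧ pt z ∈ KT} =
        (fun p : PE n × (Q → ℂ) => (pr p.1 p.2 : BX n Q)) '' ((L' ∩ Fc) ×ˢ KT) := by
      ext z
      constructor
      · rintro ⟨h1, h2⟩
        exact ⟨(px z, pt z), ⟨h1, h2⟩, pr_px z⟩
      · rintro ⟨p, ⟨h1, h2⟩, rfl⟩
        exact ⟨h1, h2⟩
    rw [hL, h1]
    exact (((hL'c.inter_right hFc).prod S.KTc).image pr_cont).inter_right isClosed_closure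
  have hLO₂ : L ⊆ O₂ := by
    rintro z ⟨⟨⟨h1, h1F⟩, h2⟩, -⟩
    have h3 := hL'O h1
    refine ⟨⟨hDF _ h1F ((hL'm _).1 h1).1, S.KTO h2⟩, ?_⟩
    simp only [mem_iInter]
    exact fun i hi => h3.2.2 i hi
  have hz₂L : z₂ ∈ L := by
    refine ⟨⟨⟨(hL'm x₂).mpr ⟨(hG₁D z₂ hz₂Wn.1.1).le, fun i hi => ?_⟩, hOF hz₂O₂.1.1⟩,
      S.prop z₂ hz₂O₂.1 (fun j => Wp_zero hz₂W j)⟩, subset_closure hz₂W⟩
    exact (hb.ψφ x₂ hx₂B _ (by
      have := hWM z₂ hz₂Wn i hi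
      show R₃ < ‖(fx a n (px z₂))^[M] (px z₂ (some i))‖
      linarith)).symm
  -- the time `N`
  obtain ⟨N, hN⟩ := BE_lim hb hR₇.symm.le hx₂B hη₀0
  have hAN₂ : (volume (BE a n R₃ R₇ φ N x₂)).toReal ≤ a₀ := by
    have h1 := hN N le_rfl
    have h2 : (volume {z : ℂ | ¬ Esc (fx a n x₂) z}).toReal ≤ m₀ + η₀ :=
      ENNReal.toReal_le_of_le_ofReal (by positivity) (hWv z₂ hz₂Wn)
    rw [hη₀] at h1 h2
    linarith
  have hlsc' := H.lscp H.ko0 H.ko1 H.ko2 H.ko3 a n 1 M N B R C₁ R₁ R₃ R₇ (1 / 2) (1 / 2) r₁ r₂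
    (r₁ / 2) 1 ψ φ ∅ Ee id L' ha hn one_pos hb hR₇.symm.le hKL (by linarith) (by linarith) one_pos
    hL'O (by simp)
  simp only [BE_eq] at hlsc'
  have hlsc : LowerSemicontinuousOn
      (fun z : BX n Q => (volume (BE a n R₃ R₇ φ N (px z))).toReal) L := by
    intro z hz y hy
    have h1 := hlsc' (px z) hz.1.1.1 y hy
    have h2 : Tendsto (px : BX n Q → PE n) (𝓝[L] z) (𝓝[L'] (px z)) := by
      rw [tendsto_nhdsWithin_iff]
      refine ⟨(px_cont.tendsto z).mono_left nhdsWithin_le_nhds, ?_⟩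
      filter_upwards [self_mem_nhdsWithin] with z' hz'
      exact hz'.1.1.1
    exact h2.eventually h1
  have hDl : ∀ x : PE n, ∑ j : Fin (n + 2), ‖cf a n j x - cf a n j x₁‖ ^ 2 = Dl a n x₁ x := by
    intro x
    rw [Dl_eq, Finset.sum_range]
  have hDl2 : ∀ x y : PE n, Dl a n x y = ∑ j : Fin (n + 2), ‖cf a n j y - cf a n j x‖ ^ 2 := by
    intro x y
    rw [Dl_eq, Finset.sum_range]
  refine H.mina (BX n Q) (Fin (n + 2)) (fun j z => cf a n j (px z)) (fun j => cf a n j x₁)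
    (fun z => (volume (BE a n R₃ R₇ φ N (px z))).toReal) L f z₂ n₀ c₀
    (fun j => (cf_diff a n j).comp px_diff) (fun _ => ENNReal.toReal_nonneg) hn₀ hc₀ hLc
    (hfd.continuousOn.mono hLO₂) hlsc hz₂L hfz₂ hAN₂ ?_ ?_
  · show c₀ / 2 * ∑ j : Fin (n + 2), ‖cf a n j x₂ - cf a n j x₁‖ ^ 2 ≤ c₀ * n₀ / 16
    rw [hDl]
    exact (hz₂Wn.1.1 : c₀ / 2 * Dl a n x₁ (px z₂) < a₀).le
  · intro p hp hpf hpD hpA
    have hpD' : Dl a n x₁ (px p) < n₀ := by rw [← hDl]; exact hpD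
    have hpO : p ∈ O₂ := hLO₂ hp
    have hpB : px p ∈ ball (0 : PE n) B := hO₂B p hpO
    have hpΔ : Δ p ≠ 0 := left_ne_zero_of_mul hpf
    -- the point is adapted
    have hph : ∀ j, h j p = 0 := by
      intro j
      have hc : ContinuousAt (h j) p := (S.hd j).continuousOn.continuousAt (hOD.mem_nhds hpO.1)
      have hfr : ∃ᶠ w in 𝓝 p, w ∈ Wp (OD Ox Ot) E h := mem_closure_iff_frequently.1 hp.2
      by_contra hne
      obtain ⟨w, hw, hw2⟩ := (hfr.and_eventually (hc.eventually_ne hne)).exists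
      exact hw2 (hw.2.1 j)
    have hpW : p ∈ Wp (OD Ox Ot) E h :=
      Wp_closed hOD S.hd S.Ed hpO.1 hph (Ind_h (hInd p hpΔ)) hp.2
    -- the area near the point
    set mp : ℝ := (volume (BE a n R₃ R₇ φ N (px p))).toReal with hmp
    have hmp0 : 0 ≤ mp := ENNReal.toReal_nonneg
    have hmpv : volume {w : ℂ | ¬ Esc (fx a n (px p)) w} ≤ ENNReal.ofReal mp :=
      calc volume {w : ℂ | ¬ Esc (fx a n (px p)) w}
          ≤ volume (BE a n R₃ R₇ φ N (px p)) := measure_mono (notEsc_sub hb hpB N)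
        _ = ENNReal.ofReal mp :=
          (ENNReal.ofReal_toReal (BE_fin hb hR₇.symm.le hpB N)).symm
    obtain ⟨σ', hσ', husc'⟩ := usc hb hR₇.symm.le hpB
      (show 0 < (c₀ * n₀ - mp) / 2 by linarith [show mp < c₀ * n₀ from hpA])
    have hvolp : ∀ z : BX n Q, px z ∈ ball (px p) σ' →
        volume {w : ℂ | ¬ Esc (fx a n (px z)) w} < ENNReal.ofReal (c₀ * n₀) := by
      intro z hz
      calc volume {w : ℂ | ¬ Esc (fx a n (px z)) w}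
          ≤ volume {w : ℂ | ¬ Esc (fx a n (px p)) w} + ENNReal.ofReal ((c₀ * n₀ - mp) / 2) :=
            husc' (px z) hz
        _ ≤ ENNReal.ofReal mp + ENNReal.ofReal ((c₀ * n₀ - mp) / 2) := by gcongr
        _ = ENNReal.ofReal (mp + (c₀ * n₀ - mp) / 2) := by
          rw [← ENNReal.ofReal_add hmp0]
          linarith [show mp < c₀ * n₀ from hpA]
        _ < ENNReal.ofReal (c₀ * n₀) := by
          apply (ENNReal.ofReal_lt_ofReal_iff (mul_pos hc₀ hn₀)).mpr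
          linarith [show mp < c₀ * n₀ from hpA]
    -- the curve
    set G : Set (BX n Q) := ((O₂ ∩ f ⁻¹' {0}ᶜ) ∩ {z | Dl a n x₁ (px z) < n₀}) ∩
      px ⁻¹' ball (px p) σ' with hGdef
    have hGo : IsOpen G :=
      ((hfd.continuousOn.isOpen_inter_preimage hO₂o isOpen_compl_singleton).inter
        (isOpen_lt ((Dl_continuous a n x₁).comp px_cont) continuous_const)).inter
        (isOpen_ball.preimage px_cont)
    have hpG : p ∈ G := ⟨⟨⟨hpO, hpf⟩, hpD'⟩, mem_ball_self hσ'⟩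
    have hGO₂ : G ⊆ O₂ := fun z hz => hz.1.1.1
    obtain ⟨τ, γ, hτ, hγ0, hγ⟩ := flowW H.flow hOD S.hd hGo (fun z hz => (hGO₂ hz).1)
      (hXd.mono hGO₂) (fun z _ => hXh z) hpW hpG
    have h0 : (0 : ℂ) ∈ ball (0 : ℂ) τ := mem_ball_self hτ
    have hγO₂ : ∀ t ∈ ball (0 : ℂ) τ, γ t ∈ O₂ := fun t ht => hGO₂ (hγ t ht).1
    have hγB : ∀ t ∈ ball (0 : ℂ) τ, px (γ t) ∈ ball (0 : PE n) B := fun t ht =>
      hO₂B _ (hγO₂ t ht)
    have hγΔ : ∀ t ∈ ball (0 : ℂ) τ, Δ (γ t) ≠ 0 := fun t ht =>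
      left_ne_zero_of_mul (show f (γ t) ≠ 0 from (hγ t ht).1.1.1.2)
    -- the coordinates are constant
    have hXD : ∀ i ∈ Ee, ∀ t ∈ ball (0 : ℂ) τ,
        fderiv ℂ (DD a n φ M i) (γ t) (X (γ t)) = 0 := by
      intro i hi t ht
      by_cases hiJ : i ∈ J
      · exact hXDJ _ i hiJ
      · have h1 := span_of_max (r := fun k => Rw a n φ h M k (γ t)) (k := Sum.inr i)
          (hInd _ (hγΔ t ht)) (Or.inr (by
            rw [← js_insert]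
            refine hmax2 (γ t) (hγ t ht).2.2 (hγ t ht).1.1.2 (hvolp _ (hγ t ht).1.2)
              (hescE _ (hγO₂ t ht)) (insert i J) M (Finset.card_insert_of_notMem hiJ) ?_
            intro i' hi'
            rcases Finset.mem_insert.1 hi' with rfl | hi'
            · exact hO₂M _ (hγO₂ t ht) _ hi
            · exact hO₂M _ (hγO₂ t ht) _ (hJE hi')))
        exact Fd_span v w h1
    have hDc : ∀ i ∈ Ee, ∀ t ∈ ball (0 : ℂ) τ, DD a n φ M i (γ t) = DD a n φ M i p := by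
      intro i hi t ht
      have h1 := along hO₂o (hDDd i hi) (fun s hs => (hγ s hs).2.1) hγO₂ (hXD i hi) t ht
      rw [hγ0] at h1
      exact h1
    have hpe := ((hL'm (px p)).mp hp.1.1.1).2
    have hDp : ∀ i ∈ Ee, DD a n φ M i p = F0 i := by
      intro i hi
      have hE0 : R₃ < ‖(fx a n (px p))^[M] (px p (some i))‖ := hO₂M p hpO i hi
      have e1 := hb.ψφ (px p) hpB _ hE0
      have e2 : R₁ < ‖F0 i‖ := by have := hF0n i hi; linarith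
      refine hb.ψi (px p) hpB (φ_norm hb hpB hE0) e2 ?_
      show ψ (px p, φ (px p, (fx a n (px p))^[M] (px p (some i)))) = ψ (px p, F0 i)
      rw [e1]
      exact hpe i hi
    have hesc : ∀ t ∈ ball (0 : ℂ) τ, ∀ i ∈ Ee,
        (fx a n (px (γ t)))^[M] (px (γ t) (some i)) = ψ (px (γ t), F0 i) := by
      intro t ht i hi
      have h5 := hb.ψφ (px (γ t)) (hγB t ht) _ (hO₂M _ (hγO₂ t ht) i hi)
      rw [← h5]
      have h6 : φ (px (γ t), (fx a n (px (γ t)))^[M] (px (γ t) (some i))) = F0 i :=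
        (hDc i hi t ht).trans (hDp i hi)
      rw [h6]
    have hcenb : ∀ t ∈ ball (0 : ℂ) τ, cf a n n (px (γ t)) = b := fun t ht =>
      S.cen _ (hγO₂ t ht).1 (fun j => Wp_zero (hγ t ht).2.2 j)
    have hpbad : ∀ l, l ∉ Ee → ¬ Esc (fx a n (px p)) (px p (some l)) :=
      hmax1 p hpW hpD' (hvolp p (mem_ball_self hσ')) (hescE p hpO)
    have hγd : DifferentiableOn ℂ (fun t => px (γ t)) (ball 0 τ) :=
      DifferentiableOn.comp (g := (px : BX n Q → PE n)) (f := γ) (t := univ)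
        px_diff.differentiableOn
        (fun t ht => (hγ t ht).2.1.differentiableAt.differentiableWithinAt) (fun _ _ => mem_univ _)
    have hGD : GDE a n M B R₃ ψ Ee F0 τ (fun t => px (γ t)) :=
      { hρ := hτ
        γd := hγd
        γB := hγB
        F1 := fun i hi => by have := hF0n i hi; linarith
        esc := hesc
        cen := fun t ht => (hcenb t ht).trans (hcenb 0 h0).symm
        bad := by simp only [hγ0]; exact hpbad }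
    obtain ⟨r₀, hr₀, hr₀ρ, hloc⟩ := Pool.Agent.X167.Sh.loc H N ha hn hb hR₇.symm.le hGD hR₄ hR₅
      hc₀ hv₀ hgain
    have hsub : ∀ t ∈ ball (0 : ℂ) r₀, t ∈ ball (0 : ℂ) τ := fun t ht => ball_subset_ball hr₀ρ ht
    refine ⟨r₀, γ, hr₀, hγ0, fun t ht =>
      (hγ t (hsub t ht)).2.1.differentiableAt.differentiableWithinAt, ?_, ?_, ⟨j, ?_⟩, ?_⟩
    · intro t ht
      have ht' := hsub t ht
      refine ⟨⟨⟨⟨(hL'm _).mpr ⟨(show Dl a n x₁ (px (γ t)) < n₀ from (hγ t ht').1.1.2).le,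
        hesc t ht'⟩, hOF (hγO₂ t ht').1.1⟩,
        S.prop _ (hγO₂ t ht').1 (fun j => Wp_zero (hγ t ht').2.2 j)⟩,
        subset_closure (hγ t ht').2.2⟩, (hγ t ht').1.1.1.2⟩
    · exact hfd.comp (fun t ht =>
        (hγ t (hsub t ht)).2.1.differentiableAt.differentiableWithinAt)
        (fun t ht => hγO₂ t (hsub t ht))
    · have e1 := ((hcfd (γ 0)).hasFDerivAt.comp_hasDerivAt 0 (hγ 0 h0).2.1).deriv
      show deriv (fun t => cf a n j (px (γ t))) 0 ≠ 0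
      have e2 : deriv (fun t => cf a n j (px (γ t))) 0 =
          fderiv ℂ (fun z : BX n Q => cf a n j (px z)) (γ 0) (X (γ 0)) := e1
      rw [e2, hγ0]
      exact right_ne_zero_of_mul hpf
    · intro r hr hrr η' hη' q hq
      obtain ⟨θ, hθ⟩ := hloc r hr hrr η' hη' q hq
      refine ⟨θ, ?_⟩
      simp only [hDl2] at hθ
      exact hθ

end Pool.Agent.H207.GP
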