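import Mathlib
import Pool.Agent.H207.GP.Step
import Pool.Graph.R_seed8.H713R5.QJ.TVFAM

/-! Project GP: the induction. -/

set_option autoImplicit false

open Topology Filter Metric Set Polynomial MeasureTheory
open Pool.Agent.H713R3.ZA Pool.Agent.H713R5.QJ
open Pool.Agent.H207.GF (Wp Wp_zero Wp_open Wp_closed)
open Pool.Agent.X167.Sh (Esc usc)

namespace Pool.Agent.H207.GP

open TVFAM in
open Classical in
theorem claim (H : HH) {a : ℂ} {n k ρ : ℕ} {Q : Type} [Fintype Q] {B R C₁ R₁ R₃ c₀ : ℝ}
    {ψ φ : PE n × ℂ → ℂ} (hG : GG a n B R C₁ R₁ R₃ ψ φ c₀) {Ox : Set (PE n)}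
    {Ot KT : Set (Q → ℂ)} {E : Fin k → BX n Q → ℂ} {h : Fin ρ → BX n Q → ℂ} {b : ℂ}
    (S : St a n B Ox Ot KT E h b) {Fc : Set (PE n)} (hFc : IsClosed Fc) (hOF : Ox ⊆ Fc) (m : ℕ) :
    ∀ (z : BX n Q) (J : Finset (Fin n)) (M : ℕ) (n₀ : ℝ),
      z ∈ Wp (OD Ox Ot) E h → (∀ i ∈ J, R₃ < ‖(fx a n (px z))^[M] (px z (some i))‖) →
      Ind a n φ h M J z → 0 < n₀ →
      (n + 1) * (Finset.univ.filter (fun i : Fin n => ¬ Esc (fx a n (px z))
        (px z (some i)))).card + (n - J.card) < m →
      volume {w : ℂ | ¬ Esc (fx a n (px z)) w} < ENNReal.ofReal (c₀ * n₀ / 16) →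
      (∀ y : PE n, (∀ j : ℕ, ‖cf a n j y - cf a n j (px z)‖ ≤ kk m * Real.sqrt n₀) →
        y ∈ ball (0 : PE n) B ∧ (y ∈ Fc → y ∈ Ox)) →
      ∃ z' ∈ Wp (OD Ox Ot) E h, (∃ (J' : Finset (Fin n)) (M' : ℕ),
        ρ + J'.card = n + 1 + Fintype.card Q ∧
        (∀ i ∈ J', R₃ < ‖(fx a n (px z'))^[M'] (px z' (some i))‖) ∧ Ind a n φ h M' J' z') ∧
        ∀ j : ℕ, ‖cf a n j (px z') - cf a n j (px z)‖ ≤ kk m * Real.sqrt n₀ := by
  induction m with
  | zero =>
    intro z J M n₀ _ _ _ _ hlt
    omega
  | succ m ih =>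
    intro z J M n₀ hz hJ1 hJ2 hn₀ hpot hvol hR
    have hkm := kk_nonneg m
    have hs := Real.sqrt_nonneg n₀
    have hkk : kk (m + 1) = 1 + 4 * kk m := rfl
    have hle : ρ + J.card ≤ n + 1 + Fintype.card Q := by
      haveI : Fintype (js ρ J) := Fintype.ofFinite _
      have h1 := card_gen (f := fun k : js ρ J => Rw a n φ h M k z) hJ2
      rw [card_js, Module.finrank_fintype_fun_eq_card, Fintype.card_sum, Fintype.card_option,
        Fintype.card_fin] at h1
      omega
    rcases hle.lt_or_eq with hlt | heq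
    · have hR' : ∀ y : PE n, Dl a n (px z) y ≤ n₀ → y ∈ ball (0 : PE n) B ∧ (y ∈ Fc → y ∈ Ox) := by
        intro y hy
        apply hR
        intro j
        refine (coeff_of_Dl a n (px z) y hy j).trans ?_
        rw [hkk]
        nlinarith [mul_nonneg hkm hs]
      obtain ⟨z', hz', hD, hvol', hgood, hcase⟩ := step H hG S hz hJ1 hJ2 hlt hn₀ hFc hOF
        (fun y hy => (hR' y hy).1) (fun y hyF hy => (hR' y hy).2 hyF) hvol
      have hsq : Real.sqrt (16 * n₀) = 4 * Real.sqrt n₀ := by
        rw [Real.sqrt_mul (by norm_num)]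
        congr 1
        rw [show (16 : ℝ) = 4 ^ 2 by norm_num, Real.sqrt_sq (by norm_num)]
      -- the set of bad critical points
      have hsub : (Finset.univ.filter (fun i : Fin n => ¬ Esc (fx a n (px z'))
          (px z' (some i)))) ⊆ (Finset.univ.filter (fun i : Fin n => ¬ Esc (fx a n (px z))
          (px z (some i)))) := by
        intro i hi
        rw [Finset.mem_filter] at hi ⊢
        exact ⟨Finset.mem_univ _, fun h => hi.2 (hgood i h)⟩
      obtain ⟨J', M', hJ'1, hJ'2, hpot'⟩ : ∃ (J' : Finset (Fin n)) (M' : ℕ),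
          (∀ i ∈ J', R₃ < ‖(fx a n (px z'))^[M'] (px z' (some i))‖) ∧ Ind a n φ h M' J' z' ∧
          (n + 1) * (Finset.univ.filter (fun i : Fin n => ¬ Esc (fx a n (px z'))
            (px z' (some i)))).card + (n - J'.card) < m := by
        rcases hcase with ⟨j, hj, hj'⟩ | ⟨J', M', hc, h1, h2⟩
        · refine ⟨∅, 0, fun i hi => absurd hi (Finset.notMem_empty i), Ind_empty 0 hz'.2.2.1, ?_⟩
          have h1 : (Finset.univ.filter (fun i : Fin n => ¬ Esc (fx a n (px z'))
              (px z' (some i)))).card < (Finset.univ.filter (fun i : Fin n =>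
              ¬ Esc (fx a n (px z)) (px z (some i)))).card := by
            apply Finset.card_lt_card
            rw [Finset.ssubset_iff_of_subset hsub]
            refine ⟨j, ?_, ?_⟩
            · rw [Finset.mem_filter]
              exact ⟨Finset.mem_univ _, hj⟩
            · rw [Finset.mem_filter]
              rintro ⟨-, h⟩
              exact h hj'
          rw [Finset.card_empty]
          have h2 : (n + 1) * ((Finset.univ.filter (fun i : Fin n => ¬ Esc (fx a n (px z'))
              (px z' (some i)))).card + 1) ≤ (n + 1) * (Finset.univ.filter (fun i : Fin n =>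
              ¬ Esc (fx a n (px z)) (px z (some i)))).card := Nat.mul_le_mul_left _ h1
          rw [mul_add] at h2
          omega
        · refine ⟨J', M', h1, h2, ?_⟩
          have h3 : J'.card ≤ n := (Finset.card_le_univ J').trans (by simp)
          have h4 := Nat.mul_le_mul_left (n + 1) (Finset.card_le_card hsub)
          omega
      obtain ⟨z'', hz'', hfull, hzc⟩ := ih z' J' M' (16 * n₀) hz' hJ'1 hJ'2 (by positivity) hpot'
        (by
          have : c₀ * (16 * n₀) / 16 = c₀ * n₀ := by ring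
          rw [this]
          exact hvol') (by
          intro y hy
          apply hR
          intro j
          have h1 := hy j
          have h2 : ‖cf a n j (px z') - cf a n j (px z)‖ ≤ Real.sqrt n₀ :=
            coeff_of_Dl a n (px z) (px z') hD.le j
          rw [hsq] at h1
          have h3 : ‖cf a n j y - cf a n j (px z)‖ ≤
              ‖cf a n j y - cf a n j (px z')‖ + ‖cf a n j (px z') - cf a n j (px z)‖ := by
            have := norm_add_le (cf a n j y - cf a n j (px z')) (cf a n j (px z') - cf a n j (px z))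
            rwa [sub_add_sub_cancel] at this
          rw [hkk]
          nlinarith)
      refine ⟨z'', hz'', hfull, ?_⟩
      intro j
      have h1 := hzc j
      have h2 : ‖cf a n j (px z') - cf a n j (px z)‖ ≤ Real.sqrt n₀ :=
        coeff_of_Dl a n (px z) (px z') hD.le j
      rw [hsq] at h1
      have h3 : ‖cf a n j (px z'') - cf a n j (px z)‖ ≤
          ‖cf a n j (px z'') - cf a n j (px z')‖ + ‖cf a n j (px z') - cf a n j (px z)‖ := by
        have := norm_add_le (cf a n j (px z'') - cf a n j (px z'))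
          (cf a n j (px z') - cf a n j (px z))
        rwa [sub_add_sub_cancel] at this
      rw [hkk]
      nlinarith
    · refine ⟨z, hz, ⟨J, M, heq, hJ1, hJ2⟩, ?_⟩
      intro j
      rw [sub_self, norm_zero]
      exact mul_nonneg (kk_nonneg _) (Real.sqrt_nonneg _)

end Pool.Agent.H207.GP
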