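import Mathlib
import Pool.Agent.H207.GP.Claim

/-! Project GP: disjoint critical orbits, and the engine. -/

set_option autoImplicit false

open Topology Filter Metric Set Polynomial MeasureTheory
open Pool.Agent.H713R3.ZA Pool.Agent.H713R5.QJ
open Pool.Agent.H207.GF (Wp Wp_zero Wp_open Wp_closed)
open Pool.Agent.X167.Sh (Esc usc qq_iter_fiber)

namespace Pool.Agent.H207.GP

/-- generic values of the coordinates -/
theorem generic {a : ℂ} (ha : a ≠ 0) (n : ℕ) (w₀ : Fin n → ℂ) {ε : ℝ} (hε : 0 < ε)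
    (T : Finset (Fin n)) : ∃ w : Fin n → ℂ, (∀ i, ‖w i - w₀ i‖ < ε) ∧
      ∀ i ∈ T, ∀ i' ∈ T, i ≠ i' → ∀ p q : ℕ, (QQ a n)^[p] (w i) ≠ (QQ a n)^[q] (w i') := by
  classical
  induction T using Finset.induction_on with
  | empty => exact ⟨w₀, fun i => by rw [sub_self, norm_zero]; exact hε, by simp⟩
  | insert i T hi ih =>
    obtain ⟨w, hw1, hw2⟩ := ih
    set Bd : Set ℂ := ⋃ i' : Fin n, ⋃ p : ℕ, ⋃ q : ℕ, {u : ℂ | (QQ a n)^[p] u = (QQ a n)^[q] (w i')}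
      with hBd
    have hBc : Bd.Countable := by
      refine countable_iUnion fun i' => countable_iUnion fun p => countable_iUnion fun q => ?_
      exact (qq_iter_fiber ha n p _).countable
    have hdense := hBc.dense_compl ℂ
    obtain ⟨u, hu1, hu2⟩ := hdense.exists_mem_open isOpen_ball
      ⟨w₀ i, mem_ball_self hε⟩
    have hne : ∀ i' : Fin n, ∀ p q : ℕ, (QQ a n)^[p] u ≠ (QQ a n)^[q] (w i') := by
      intro i' p q he
      apply hu1
      exact mem_iUnion.2 ⟨i', mem_iUnion.2 ⟨p, mem_iUnion.2 ⟨q, he⟩⟩⟩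
    refine ⟨Function.update w i u, ?_, ?_⟩
    · intro j
      by_cases hj : j = i
      · subst hj
        rw [Function.update_self, ← dist_eq_norm]
        exact hu2
      · rw [Function.update_of_ne hj]
        exact hw1 j
    · intro j hj j' hj' hjj' p q
      rcases Finset.mem_insert.1 hj with h1 | h1
      · subst h1
        have h2 : j' ≠ j := fun h => hjj' h.symm
        rw [Function.update_self, Function.update_of_ne h2]
        exact hne j' p q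
      · have h2 : j ≠ i := fun h => hi (h ▸ h1)
        rw [Function.update_of_ne h2]
        rcases Finset.mem_insert.1 hj' with h3 | h3
        · subst h3
          rw [Function.update_self]
          exact (hne j q p).symm
        · have h4 : j' ≠ i := fun h => hi (h ▸ h3)
          rw [Function.update_of_ne h4]
          exact hw2 j h1 j' h3 hjj' p q

/-- near a point of full rank there are points whose escaping critical points have disjoint
orbits -/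
theorem disj {a : ℂ} {n k ρ : ℕ} {Q : Type} [Fintype Q] {B R C₁ R₁ R₃ : ℝ}
    {ψ φ : PE n × ℂ → ℂ} (ha : a ≠ 0) (hb : BO a n B R C₁ R₁ R₃ ψ φ) {Ox : Set (PE n)}
    {Ot KT : Set (Q → ℂ)} {E : Fin k → BX n Q → ℂ} {h : Fin ρ → BX n Q → ℂ} {b : ℂ}
    (S : St a n B Ox Ot KT E h b) {z : BX n Q} (hz : z ∈ Wp (OD Ox Ot) E h)
    {J : Finset (Fin n)} {M : ℕ} (hJ1 : ∀ i ∈ J, R₃ < ‖(fx a n (px z))^[M] (px z (some i))‖)
    (hJ2 : Ind a n φ h M J z) {N : Set (BX n Q)} (hN : N ∈ 𝓝 z) :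
    ∃ z' ∈ N, z' ∈ Wp (OD Ox Ot) E h ∧
      (∀ i ∈ J, Esc (fx a n (px z')) (px z' (some i))) ∧
      ∀ i ∈ J, ∀ i' ∈ J, i ≠ i' → ∀ p q : ℕ,
        (fx a n (px z'))^[p] (px z' (some i)) ≠ (fx a n (px z'))^[q] (px z' (some i')) := by
  classical
  have hb1 := hb.hR; have hb2 := hb.hC; have hb3 := hb.hR₁; have hb4 := hb.hR₃
  have hOD : IsOpen (OD Ox Ot : Set (BX n Q)) := OD_open S.Oxo S.Oto
  have hzB : px z ∈ ball (0 : PE n) B := S.OxB hz.1.1
  haveI : Fintype (js ρ J) := Fintype.ofFinite _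
  -- the neighbourhood
  have hfar : ∀ᶠ z' in 𝓝 z, px z' ∈ ball (0 : PE n) B ∧
      ∀ i ∈ J, R₃ < ‖(fx a n (px z'))^[M] (px z' (some i))‖ := by
    refine Filter.Eventually.and (px_cont.continuousAt.eventually_mem (isOpen_ball.mem_nhds hzB)) ?_
    rw [Filter.eventually_all_finset]
    intro i hi
    exact (isOpen_lt continuous_const (crit_diff' a n M i).continuous.norm).mem_nhds (hJ1 i hi)
  have hN' : ∀ᶠ z' in 𝓝 z, z' ∈ N ∧ (px z' ∈ ball (0 : PE n) B ∧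
      ∀ i ∈ J, R₃ < ‖(fx a n (px z'))^[M] (px z' (some i))‖) ∧
      ((∀ j, h j z' = 0) → z' ∈ Wp (OD Ox Ot) E h) :=
    (show ∀ᶠ z' in 𝓝 z, z' ∈ N from hN).and (hfar.and (Wp_open hOD S.hd hz))
  -- the map
  let F : BX n Q → (js ρ J → ℂ) := fun z' k => match k.1 with
    | Sum.inl k => h k z'
    | Sum.inr i => DD a n φ M i z'
  have hFd : ∀ k : js ρ J, HasStrictFDerivAt (fun z' => F z' k) (Rw a n φ h M k z) z := by
    rintro ⟨k | i, hk⟩
    · have h1 : ContDiffAt ℂ 1 (h k) z :=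
        (Pool.Agent.Helper540.contDiffOn_of_differentiableOn hOD (S.hd k) 1).contDiffAt
          (hOD.mem_nhds hz.1)
      exact h1.hasStrictFDerivAt one_ne_zero
    · have hi := inr_js.1 hk
      have ho := far_open' (Q := Q) a n M B R₃ i
      have h1 : ContDiffAt ℂ 1 (DD a n φ M i : BX n Q → ℂ) z :=
        (Pool.Agent.Helper540.contDiffOn_of_differentiableOn ho (DD_diff hb i (fun z hz => hz.1)
          (fun z hz => hz.2)) 1).contDiffAt (ho.mem_nhds ⟨hzB, hJ1 i hi⟩)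
      exact h1.hasStrictFDerivAt one_ne_zero
  have hF : HasStrictFDerivAt F (ContinuousLinearMap.pi fun k : js ρ J => Rw a n φ h M k z) z :=
    hasStrictFDerivAt_pi.2 hFd
  obtain ⟨v, hv⟩ := dual_gen (f := fun k : js ρ J => Rw a n φ h M k z) hJ2
  have hsurj : (ContinuousLinearMap.pi fun k : js ρ J => Rw a n φ h M k z).range = ⊤ := by
    rw [LinearMap.range_eq_top]
    intro y
    refine ⟨∑ k, y k • v k, ?_⟩
    funext k
    simp only [ContinuousLinearMap.coe_pi, map_sum, map_smul, Finset.sum_apply, Pi.smul_apply]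
    simp [hv]
  have hmap := hF.map_nhds_eq_of_surj hsurj
  have himg : F '' {z' | z' ∈ N ∧ (px z' ∈ ball (0 : PE n) B ∧
      ∀ i ∈ J, R₃ < ‖(fx a n (px z'))^[M] (px z' (some i))‖) ∧
      ((∀ j, h j z' = 0) → z' ∈ Wp (OD Ox Ot) E h)} ∈ 𝓝 (F z) := by
    rw [← hmap]
    exact image_mem_map hN'
  obtain ⟨ε, hε, hball⟩ := Metric.mem_nhds_iff.1 himg
  obtain ⟨w, hw1, hw2⟩ := generic ha n (fun i => DD a n φ M i z) (half_pos hε) J
  let y : js ρ J → ℂ := fun k => match k.1 with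
    | Sum.inl _ => 0
    | Sum.inr i => w i
  have hy : y ∈ ball (F z) ε := by
    rw [mem_ball, dist_eq_norm]
    refine lt_of_le_of_lt ?_ (half_lt_self hε)
    rw [pi_norm_le_iff_of_nonneg (half_pos hε).le]
    rintro ⟨k | i, hk⟩
    · show ‖(0 : ℂ) - h k z‖ ≤ ε / 2
      rw [hz.2.1 k, sub_zero, norm_zero]
      exact (half_pos hε).le
    · exact (hw1 i).le
  obtain ⟨z', ⟨hz'N, ⟨hz'B, hz'J⟩, hz'W⟩, hz'y⟩ := hball hy
  have hW' : z' ∈ Wp (OD Ox Ot) E h := hz'W fun j =>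
    congrFun hz'y (⟨Sum.inl j, inl_js J j⟩ : js ρ J)
  have hDD : ∀ i ∈ J, DD a n φ M i z' = w i := fun i hi =>
    congrFun hz'y (⟨Sum.inr i, inr_js.2 hi⟩ : js ρ J)
  refine ⟨z', hz'N, hW', fun i hi => ?_, ?_⟩
  · exact esc_of_large hb hz'B (k := M) (by have := hz'J i hi; linarith)
  · intro i hi i' hi' hii' p q he
    apply hw2 i hi i' hi' hii' p q
    rw [← hDD i hi, ← hDD i' hi', ← DD_iter hb hz'B (hz'J i hi) p,
      ← DD_iter hb hz'B (hz'J i' hi') q]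
    rw [← Function.iterate_add_apply, ← Function.iterate_add_apply, add_comm p M, add_comm q M,
      Function.iterate_add_apply, Function.iterate_add_apply, he]

/-- the setting, without the adapted family -/
structure St0 (a : ℂ) (n : ℕ) {Q : Type} [Fintype Q] {k : ℕ} (B : ℝ) (Ox : Set (PE n))
    (Ot KT : Set (Q → ℂ)) (E : Fin k → BX n Q → ℂ) (b : ℂ) : Prop where
  Oxo : IsOpen Ox
  OxB : Ox ⊆ ball 0 B
  Oto : IsOpen Ot
  KTc : IsCompact KT
  KTO : KT ⊆ Ot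
  Ed : ∀ j, DifferentiableOn ℂ (E j) (OD Ox Ot)
  prop : ∀ z ∈ OD Ox Ot, (∀ j, E j z = 0) → pt z ∈ KT
  cen : ∀ z ∈ OD Ox Ot, (∀ j, E j z = 0) → cf a n n (px z) = b

/-- The engine. -/
theorem engine (H : HH) {a : ℂ} {n : ℕ} (ha : a ≠ 0) (hn : 1 ≤ n) {B : ℝ} (hB0 : 0 < B) :
    ∃ C : ℝ, 0 < C ∧ ∀ {Q : Type} [Fintype Q] {k : ℕ} {Ox : Set (PE n)} {Ot KT : Set (Q → ℂ)}
      {E : Fin k → BX n Q → ℂ} {b : ℂ}, St0 a n B Ox Ot KT E b → ∀ z₀ ∈ OD Ox Ot,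
      (∀ j, E j z₀ = 0) → ∀ s : ℝ, 0 < s →
      volume {w : ℂ | ¬ Esc (fx a n (px z₀)) w} < ENNReal.ofReal (s ^ 2) →
      ∀ {Fc : Set (PE n)}, IsClosed Fc → Ox ⊆ Fc →
      (∀ y : PE n, (∀ j : ℕ, ‖cf a n j y - cf a n j (px z₀)‖ ≤ C * s) →
        y ∈ ball (0 : PE n) B ∧ (y ∈ Fc → y ∈ Ox)) →
      ∃ z ∈ OD Ox Ot, (∀ j, E j z = 0) ∧
        (∀ j : ℕ, ‖cf a n j (px z) - cf a n j (px z₀)‖ ≤ C * s) ∧
        ∃ J : Finset (Fin n), n + 1 + Fintype.card Q ≤ k + J.card ∧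
          (∀ i ∈ J, Esc (fx a n (px z)) (px z (some i))) ∧
          ∀ i ∈ J, ∀ i' ∈ J, i ≠ i' → ∀ p q : ℕ,
            (fx a n (px z))^[p] (px z (some i)) ≠ (fx a n (px z))^[q] (px z (some i')) := by
  classical
  obtain ⟨R, C₁, R₁, R₃, ψ, φ, c₀, hG⟩ := exists_GG H ha hn hB0
  have hc₀ := hG.hc
  have hb := hG.hb
  obtain ⟨m, hm⟩ : ∃ m : ℕ, m = (n + 1) * n + n + 1 := ⟨_, rfl⟩
  have hκ := TVFAM.kk_nonneg m
  set κ := TVFAM.kk m with hκdef
  have hsc : 0 < Real.sqrt c₀ := Real.sqrt_pos.2 hc₀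
  refine ⟨(κ + 2) * (4 / Real.sqrt c₀), by positivity, ?_⟩
  intro Q _ k Ox Ot KT E b S z₀ hz₀ hE₀ s hs hvol Fc hFc hOF hR
  have hOD : IsOpen (OD Ox Ot : Set (BX n Q)) := OD_open S.Oxo S.Oto
  obtain ⟨n₀, hn₀⟩ : ∃ n₀ : ℝ, n₀ = 16 * s ^ 2 / c₀ := ⟨_, rfl⟩
  have hn₀0 : 0 < n₀ := by rw [hn₀]; positivity
  have hsq : Real.sqrt n₀ = 4 / Real.sqrt c₀ * s := by
    rw [hn₀, Real.sqrt_div (by positivity), show 16 * s ^ 2 = (4 * s) ^ 2 by ring,
      Real.sqrt_sq (by positivity)]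
    ring
  have hC : (κ + 2) * (4 / Real.sqrt c₀) * s = (κ + 2) * Real.sqrt n₀ := by
    rw [hsq]
    ring
  rw [hC] at hR ⊢
  have hsn : 0 < Real.sqrt n₀ := Real.sqrt_pos.2 hn₀0
  have hvol' : volume {w : ℂ | ¬ Esc (fx a n (px z₀)) w} < ENNReal.ofReal (c₀ * n₀ / 16) := by
    have : c₀ * n₀ / 16 = s ^ 2 := by
      rw [hn₀]
      field_simp
    rw [this]
    exact hvol
  have hx₀B : px z₀ ∈ ball (0 : PE n) B := S.OxB hz₀.1
  -- small neighbourhoods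
  have hcfn : ∀ z₁ : BX n Q, ∀ᶠ z in 𝓝 z₁, ∀ j : ℕ,
      ‖cf a n j (px z) - cf a n j (px z₁)‖ ≤ Real.sqrt n₀ := by
    intro z₁
    have h1 : ∀ᶠ z in 𝓝 z₁, Dl a n (px z₁) (px z) < n₀ := by
      have h2 : ContinuousAt (fun z : BX n Q => Dl a n (px z₁) (px z)) z₁ :=
        ((Dl_continuous a n (px z₁)).comp px_cont).continuousAt
      refine h2.eventually_lt_const ?_
      have h3 : Dl a n (px z₁) (px z₁) = 0 := by simp [Dl]
      show Dl a n (px z₁) (px z₁) < n₀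
      rw [h3]
      exact hn₀0
    filter_upwards [h1] with z hz j
    exact TVFAM.coeff_of_Dl a n (px z₁) (px z) hz.le j
  have hvn : ∀ᶠ z in 𝓝 z₀,
      volume {w : ℂ | ¬ Esc (fx a n (px z)) w} < ENNReal.ofReal (c₀ * n₀ / 16) := by
    obtain ⟨m₀, hm₀⟩ : ∃ m₀ : ℝ, m₀ = (volume {w : ℂ | ¬ Esc (fx a n (px z₀)) w}).toReal :=
      ⟨_, rfl⟩
    have hm₀0 : 0 ≤ m₀ := by rw [hm₀]; exact ENNReal.toReal_nonneg
    have hm₀f : volume {w : ℂ | ¬ Esc (fx a n (px z₀)) w} = ENNReal.ofReal m₀ := by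
      rw [hm₀, ENNReal.ofReal_toReal (hvol'.trans_le le_top).ne]
    have hlt : m₀ < c₀ * n₀ / 16 := by
      rw [hm₀f] at hvol'
      exact (ENNReal.ofReal_lt_ofReal_iff (by positivity)).mp hvol'
    obtain ⟨σ, hσ, husc⟩ := usc hb le_rfl hx₀B (show 0 < (c₀ * n₀ / 16 - m₀) / 2 by linarith)
    have h1 : ∀ᶠ z in 𝓝 z₀, px z ∈ ball (px z₀) σ :=
      px_cont.continuousAt.eventually_mem (ball_mem_nhds _ hσ)
    filter_upwards [h1] with z hz
    calc volume {w : ℂ | ¬ Esc (fx a n (px z)) w}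
        ≤ volume {w : ℂ | ¬ Esc (fx a n (px z₀)) w} +
            ENNReal.ofReal ((c₀ * n₀ / 16 - m₀) / 2) := husc (px z) hz
      _ = ENNReal.ofReal (m₀ + (c₀ * n₀ / 16 - m₀) / 2) := by
        rw [hm₀f, ← ENNReal.ofReal_add hm₀0 (by linarith)]
      _ < ENNReal.ofReal (c₀ * n₀ / 16) := by
        apply (ENNReal.ofReal_lt_ofReal_iff (by positivity)).mpr
        linarith
  obtain ⟨ρ, h, hρ, hhd, z₁, hz₁N, hz₁W⟩ := Pool.Agent.H207.GF.start hOD S.Ed hz₀ hE₀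
    ((hcfn z₀).and hvn)
  obtain ⟨hz₁c, hz₁v⟩ := hz₁N
  rw [Fintype.card_fin] at hρ
  have S' : St a n B Ox Ot KT E h b :=
    ⟨S.Oxo, S.OxB, S.Oto, S.KTc, S.KTO, S.Ed, hhd, S.prop, S.cen⟩
  have htri : ∀ (x y w : ℂ), ‖x - w‖ ≤ ‖x - y‖ + ‖y - w‖ := fun x y w => norm_sub_le_norm_sub_add_norm_sub x y w
  obtain ⟨z₂, hz₂W, ⟨J, M, hcard, hJ1, hJ2⟩, hz₂c⟩ := claim H hG S' hFc hOF m z₁ ∅ 0 n₀
    hz₁W
    (fun i hi => absurd hi (Finset.notMem_empty i)) (Ind_empty 0 hz₁W.2.2.1) hn₀0 (by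
      rw [Finset.card_empty, hm]
      have h1 : (Finset.univ.filter (fun i : Fin n => ¬ Esc (fx a n (px z₁))
        (px z₁ (some i)))).card ≤ n := (Finset.card_le_univ _).trans (by simp)
      have h2 := Nat.mul_le_mul_left (n + 1) h1
      omega) hz₁v (by
      intro y hy
      apply hR
      intro j
      have h1 := hy j
      have h2 := hz₁c j
      have h3 := htri (cf a n j y) (cf a n j (px z₁)) (cf a n j (px z₀))
      rw [← hκdef] at h1
      nlinarith)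
  obtain ⟨z₃, hz₃N, hz₃W, hesc, hdis⟩ := disj ha hb S' hz₂W hJ1 hJ2 (hcfn z₂)
  refine ⟨z₃, hz₃W.1, Wp_zero hz₃W, fun j => ?_, J, by omega, hesc, hdis⟩
  have h1 := hz₁c j
  have h2 := hz₂c j
  have h3 : ‖cf a n j (px z₃) - cf a n j (px z₂)‖ ≤ Real.sqrt n₀ := hz₃N j
  have h4 := htri (cf a n j (px z₃)) (cf a n j (px z₂)) (cf a n j (px z₀))
  have h5 := htri (cf a n j (px z₂)) (cf a n j (px z₁)) (cf a n j (px z₀))
  rw [← hκdef] at h2
  nlinarith

end Pool.Agent.H207.GP
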