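import Mathlib
import Pool.Agent.H207.GP.End

/-! Project GP: critical points of polynomials with close coefficients. -/

set_option autoImplicit false

open Topology Filter Metric Set Polynomial MeasureTheory
open Pool.Agent.H713R3.ZA Pool.Agent.H713R5.QJ

namespace Pool.Agent.H207.GP

/-- the critical points of polynomials with close coefficients are close -/
theorem crit_close (n : ℕ) {A : ℝ} (hA : 0 ≤ A) : ∃ K : ℝ, 0 < K ∧ ∀ (x y : PE n) (η : ℝ),
    (∀ j, ‖cf 1 n j x‖ ≤ A) → η ≤ 1 → (∀ j, ‖cf 1 n j y - cf 1 n j x‖ ≤ η) →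
    ∀ i : Fin n, ∃ j : Fin n, ‖y (some i) - x (some j)‖ ^ n ≤ K * η := by
  set Bb : ℝ := (A + 1) / ‖(1 : ℂ)‖ + (A + 1) + 2 with hBb
  have hBb0 : 0 ≤ Bb := by rw [hBb]; positivity
  refine ⟨1 + ∑ j ∈ Finset.range (n + 1), ((j : ℝ) + 1) * Bb ^ j, by positivity, ?_⟩
  intro x y η hx hη hxy i
  have hη0 : 0 ≤ η := (norm_nonneg _).trans (hxy 0)
  have hyB : y ∈ ball (0 : PE n) Bb := by
    apply TVFAM.bdd n one_ne_zero (by positivity)
    intro j _
    have h1 := hx j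
    have h2 := hxy j
    have h3 : ‖cf 1 n j y‖ ≤ ‖cf 1 n j y - cf 1 n j x‖ + ‖cf 1 n j x‖ := by
      have := norm_add_le (cf 1 n j y - cf 1 n j x) (cf 1 n j x)
      rwa [sub_add_cancel] at this
    show ‖cf 1 n j y‖ ≤ A + 1
    linarith
  have hyi : ‖y (some i)‖ ≤ Bb := by
    rw [mem_ball_zero_iff] at hyB
    exact (norm_le_pi_norm y (some i)).trans hyB.le
  -- the derivative
  have hev : ∀ z : PE n, ∀ u : ℂ, (dfam 1 n z).eval u =
      ∑ j ∈ Finset.range (n + 1), (cf 1 n (j + 1) z * ((j : ℂ) + 1)) * u ^ j := by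
    intro z u
    rw [Polynomial.eval_eq_sum_range' (show (dfam 1 n z).natDegree < n + 1 by
      have := dfam_deg_le 1 n z; omega)]
    refine Finset.sum_congr rfl fun j _ => ?_
    rw [← derivative_fam, coeff_derivative]
    rfl
  have hprod : ∀ z : PE n, ∀ u : ℂ, (dfam 1 n z).eval u =
      ((n : ℂ) + 1) * ∏ j : Fin n, (u - z (some j)) := by
    intro z u
    unfold dfam
    rw [eval_mul, eval_C, eval_prod, one_mul]
    simp
  have hzero : (dfam 1 n y).eval (y (some i)) = 0 := by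
    rw [hprod, Finset.prod_eq_zero (Finset.mem_univ i) (sub_self _), mul_zero]
  have hle : ‖(dfam 1 n x).eval (y (some i))‖ ≤
      (∑ j ∈ Finset.range (n + 1), ((j : ℝ) + 1) * Bb ^ j) * η := by
    have h1 : (dfam 1 n x).eval (y (some i)) =
        -∑ j ∈ Finset.range (n + 1), ((cf 1 n (j + 1) y - cf 1 n (j + 1) x) * ((j : ℂ) + 1)) *
          (y (some i)) ^ j := by
      have h2 : (dfam 1 n x).eval (y (some i)) =
          (dfam 1 n x).eval (y (some i)) - (dfam 1 n y).eval (y (some i)) := by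
        rw [hzero, sub_zero]
      rw [h2, hev, hev, ← Finset.sum_sub_distrib, ← Finset.sum_neg_distrib]
      refine Finset.sum_congr rfl fun j _ => ?_
      ring
    rw [h1, norm_neg, Finset.sum_mul]
    refine (norm_sum_le _ _).trans (Finset.sum_le_sum fun j _ => ?_)
    rw [norm_mul, norm_mul, norm_pow]
    have h2 : ‖((j : ℂ) + 1)‖ = (j : ℝ) + 1 := by
      have : ((j : ℂ) + 1) = (((j : ℝ) + 1 : ℝ) : ℂ) := by push_cast; rfl
      rw [this, Complex.norm_real, Real.norm_of_nonneg (by positivity)]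
    rw [h2]
    have h3 := hxy (j + 1)
    have h4 : ‖y (some i)‖ ^ j ≤ Bb ^ j := pow_le_pow_left₀ (norm_nonneg _) hyi j
    calc ‖cf 1 n (j + 1) y - cf 1 n (j + 1) x‖ * ((j : ℝ) + 1) * ‖y (some i)‖ ^ j
        ≤ η * ((j : ℝ) + 1) * Bb ^ j := by gcongr
      _ = ((j : ℝ) + 1) * Bb ^ j * η := by ring
  -- the nearest critical point
  obtain ⟨j, -, hj⟩ := Finset.exists_min_image Finset.univ
    (fun j : Fin n => ‖y (some i) - x (some j)‖) ⟨i, Finset.mem_univ _⟩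
  refine ⟨j, ?_⟩
  have h1 : ‖y (some i) - x (some j)‖ ^ n ≤ ∏ j : Fin n, ‖y (some i) - x (some j)‖ := by
    have h2 := Finset.prod_le_prod (s := (Finset.univ : Finset (Fin n)))
      (f := fun _ => ‖y (some i) - x (some j)‖) (g := fun j => ‖y (some i) - x (some j)‖)
      (fun _ _ => norm_nonneg _) (fun k hk => hj k hk)
    rw [Finset.prod_const, Finset.card_univ, Fintype.card_fin] at h2
    exact h2
  have h2 : ∏ j : Fin n, ‖y (some i) - x (some j)‖ ≤ ‖(dfam 1 n x).eval (y (some i))‖ := by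
    rw [hprod, norm_mul, norm_prod]
    have h3 : ‖((n : ℂ) + 1)‖ = (n : ℝ) + 1 := by
      have : ((n : ℂ) + 1) = (((n : ℝ) + 1 : ℝ) : ℂ) := by push_cast; rfl
      rw [this, Complex.norm_real, Real.norm_of_nonneg (by positivity)]
    rw [h3]
    have h4 : 0 ≤ ∏ j : Fin n, ‖y (some i) - x (some j)‖ :=
      Finset.prod_nonneg fun _ _ => norm_nonneg _
    have h5 : (0 : ℝ) ≤ n := Nat.cast_nonneg n
    nlinarith
  rw [add_mul]
  linarith

/-- a scale which is not taken by the mutual distances -/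
theorem gap {n : ℕ} (x : Fin n → ℂ) {ρ₀ : ℝ} (hρ : 0 < ρ₀) : ∃ r : ℝ, 0 < r ∧
    r ≤ 3 * ((n : ℝ) * n + 1) * ρ₀ ∧ ∀ i j, ‖x i - x j‖ ≤ r + ρ₀ → ‖x i - x j‖ ≤ r - 2 * ρ₀ := by
  by_contra hcon
  push Not at hcon
  have h1 : ∀ m : Fin (n * n + 1), ∃ p : Fin n × Fin n,
      ‖x p.1 - x p.2‖ ≤ 3 * ρ₀ * ((m : ℕ) + 1) + ρ₀ ∧
        3 * ρ₀ * ((m : ℕ) + 1) - 2 * ρ₀ < ‖x p.1 - x p.2‖ := by
    intro m
    have h2 : ((m : ℕ) : ℝ) + 1 ≤ (n : ℝ) * n + 1 := by
      have h3 : (m : ℕ) ≤ n * n := by have := m.2; omega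
      have h4 : ((m : ℕ) : ℝ) ≤ ((n * n : ℕ) : ℝ) := Nat.cast_le.2 h3
      push_cast at h4
      linarith
    have h0 : (0 : ℝ) ≤ ((m : ℕ) : ℝ) := Nat.cast_nonneg _
    obtain ⟨i, j, h3, h4⟩ := hcon (3 * ρ₀ * ((m : ℕ) + 1)) (by positivity) (by nlinarith)
    exact ⟨(i, j), h3, h4⟩
  choose p hp1 hp2 using h1
  obtain ⟨m, m', hne, hpp⟩ := Fintype.exists_ne_map_eq_of_card_lt p (by
    rw [Fintype.card_prod, Fintype.card_fin, Fintype.card_fin]
    omega)
  wlog hlt : (m : ℕ) < m' generalizing m m'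
  · exact this m' m hne.symm hpp.symm (by
      have : (m : ℕ) ≠ m' := fun h => hne (Fin.ext h)
      omega)
  have h3 := hp1 m
  have h4 := hp2 m'
  rw [← hpp] at h4
  have h5 : ((m : ℕ) : ℝ) + 1 ≤ ((m' : ℕ) : ℝ) := by exact_mod_cast hlt
  nlinarith

end Pool.Agent.H207.GP
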