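import Mathlib
import Pool.Agent.H207.GP.Gap
import Pool.Graph.R_pool_sql_team_seeded_64922ed1.X167.Sh.C
import Pool.Graph.R_pool_sql_team_seeded_c8625f6e.K4H48.ST.Main

/-! Project GP: equations for the critical points and the coefficients, with uniform constants. -/

set_option autoImplicit false

open Topology Filter Metric Set Polynomial MeasureTheory
open Pool.Agent.H713R3.ZA Pool.Agent.H713R5.QJ
open Pool.Agent.X167.Sh (Esc K_fin vol_sc esc_iff)
open Pool.Agent.K4H48.ST (CL CL_sc CL_fam fam_of_CL)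

namespace Pool.Agent.H207.GP

/-- the critical points with the indices in `J` escape and have disjoint orbits -/
def FE {n : ℕ} (T : ℂ[X]) (c : Fin n → ℂ) (J : Finset (Fin n)) : Prop :=
  (∀ i ∈ J, Esc (ev T) (c i)) ∧ ∀ i ∈ J, ∀ i' ∈ J, i ≠ i' → ∀ p q : ℕ,
    (ev T)^[p] (c i) ≠ (ev T)^[q] (c i')

theorem FE_sc {n : ℕ} {T : ℂ[X]} {c : Fin n → ℂ} {J : Finset (Fin n)} (h : FE T c J) {l : ℂ}
    (hl : l ≠ 0) : FE (sc l T) (fun i => l * c i) J := by
  refine ⟨fun i hi => (esc_iff hl T (c i)).2 (h.1 i hi), ?_⟩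
  intro i hi i' hi' hii' p q he
  rw [SCL.iter_sc hl, SCL.iter_sc hl] at he
  exact h.2 i hi i' hi' hii' p q (mul_left_cancel₀ hl he)

theorem coefA (n : ℕ) (A : ℝ) (hn : 1 ≤ n) (hA : 1 ≤ A) : ∃ C : ℝ, 0 < C ∧
    ∀ (T : ℂ[X]) (c : Fin n → ℂ), CL T c →
    (∀ j : ℕ, ‖T.coeff j‖ ≤ A) → 1 / A ≤ ‖T.leadingCoeff‖ →
    ∀ ε : ℝ, C * Real.sqrt (volume {z : ℂ | ¬ Esc (ev T) z}).toReal < ε → ε ≤ 1 →
    ∀ (k : ℕ) (G : Fin k → (Fin n → ℂ) × (Fin (n + 2) → ℂ) → ℂ),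
      (∀ j, DifferentiableOn ℂ (G j) {p | (∀ i, ‖p.1 i - c i‖ < C * ε ^ (n : ℝ)⁻¹) ∧
        ∀ i, ‖p.2 i - T.coeff i‖ < ε}) →
      (∀ j, G j (c, fun i => T.coeff i) = 0) →
      ∃ (S : ℂ[X]) (s : Fin n → ℂ), CL S s ∧ S.leadingCoeff = T.leadingCoeff ∧
        S.coeff n = T.coeff n ∧
        (∀ j : ℕ, ‖S.coeff j - T.coeff j‖ < ε) ∧ (∀ i, ‖s i - c i‖ < C * ε ^ (n : ℝ)⁻¹) ∧
        (∀ j, G j (s, fun i => S.coeff i) = 0) ∧
        ∃ J : Finset (Fin n), n ≤ k + J.card ∧ FE S s J := by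
  have hA0 : 0 < A := by linarith
  obtain ⟨C₁, hC₁, hV1⟩ := engine hh (a := 1) (n := n) one_ne_zero hn
    (B := (A ^ (n + 2) * A + 1) / ‖(1 : ℂ)‖ + (A ^ (n + 2) * A + 1) + 2) (by positivity)
  obtain ⟨K, hK, hclose⟩ := crit_close n (A := A ^ (n + 2) * A) (by positivity)
  have hKp : 0 < K ^ (n : ℝ)⁻¹ := Real.rpow_pos_of_pos hK _
  obtain ⟨C₂, hC₂⟩ : ∃ C₂ : ℝ, C₂ = A * (3 * ((n : ℝ) * n + 1) * K ^ (n : ℝ)⁻¹) := ⟨_, rfl⟩
  have hC₂0 : 0 < C₂ := by rw [hC₂]; positivity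
  refine ⟨A ^ (n + 3) * C₁ + C₂, by positivity, ?_⟩
  intro T c hTc hTA hTl
  have hT := hTc.1
  have hfin := K_fin T (by omega)
  intro ε hε hε1 k G hG hG0
  have hε : A ^ (n + 3) * C₁ * Real.sqrt (volume {z : ℂ | ¬ Esc (ev T) z}).toReal < ε := by
    refine lt_of_le_of_lt ?_ hε
    rw [add_mul]
    linarith [mul_nonneg hC₂0.le (Real.sqrt_nonneg (volume {z : ℂ | ¬ Esc (ev T) z}).toReal)]
  obtain ⟨ar, har⟩ : ∃ ar : ℝ, ar = (volume {z : ℂ | ¬ Esc (ev T) z}).toReal := ⟨_, rfl⟩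
  have har0 : 0 ≤ ar := by rw [har]; exact ENNReal.toReal_nonneg
  have hvol : volume {z : ℂ | ¬ Esc (ev T) z} = ENNReal.ofReal ar := by
    rw [har, ENNReal.ofReal_toReal hfin.ne]
  rw [← har] at hε
  have hε0 : 0 < ε := lt_of_le_of_lt (by positivity) hε
  -- the small number
  obtain ⟨e, he0, he⟩ : ∃ e : ℝ, 0 < e ∧
      A ^ (n + 3) * C₁ * Real.sqrt (ar + e) < ε := by
    have hc : Continuous (fun e : ℝ => A ^ (n + 3) * C₁ * Real.sqrt (ar + e)) := by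
      fun_prop
    have h1 : Tendsto (fun e : ℝ => A ^ (n + 3) * C₁ * Real.sqrt (ar + e)) (𝓝 0)
        (𝓝 (A ^ (n + 3) * C₁ * Real.sqrt ar)) := by
      have := hc.tendsto 0
      simpa using this
    have h2 := h1.eventually (gt_mem_nhds hε)
    rw [Metric.eventually_nhds_iff] at h2
    obtain ⟨δ, hδ, h3⟩ := h2
    refine ⟨δ / 2, by linarith, h3 ?_⟩
    rw [dist_zero_right, Real.norm_eq_abs, abs_of_pos (by linarith)]
    linarith
  -- the scaling
  obtain ⟨l, hl⟩ := IsAlgClosed.exists_pow_nat_eq T.leadingCoeff (by omega : 0 < n)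
  have hTl0 : T.leadingCoeff ≠ 0 := by
    rw [← norm_pos_iff]
    exact lt_of_lt_of_le (by positivity) hTl
  have hl0 : l ≠ 0 := by
    rintro rfl
    rw [zero_pow (by omega)] at hl
    exact hTl0 hl.symm
  have hln : ‖l‖ ^ n = ‖T.leadingCoeff‖ := by rw [← norm_pow, hl]
  have hlA : ‖l‖ ≤ A := VFIN.le_of_pow hA hn (by rw [hln]; exact hTA _)
  have hlA' : ‖l‖⁻¹ ≤ A := by
    apply VFIN.le_of_pow hA hn
    rw [inv_pow, hln]
    have h1 : 0 < ‖T.leadingCoeff‖ := norm_pos_iff.2 hTl0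
    rw [inv_le_comm₀ h1 hA0, ← one_div]
    exact hTl
  have hlp : 0 < ‖l‖ := norm_pos_iff.2 hl0
  -- the monic polynomial
  obtain ⟨k1, k2, -, -, -⟩ := scl_holds l T hl0
  have hS1top : T.coeff (n + 1) = T.leadingCoeff := by
    rw [Polynomial.leadingCoeff, hT]
  have hS2top : (sc l T).coeff (n + 1) = 1 := by
    rw [k2, hS1top, ← hl, pow_succ, inv_pow]
    field_simp
  have hS2lead : (sc l T).leadingCoeff = 1 := by
    rw [Polynomial.leadingCoeff, k1, hT, hS2top]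
  have hcl := CL_sc hTc hl0
  set x₁ : PE n := fun k => k.elim ((sc l T).coeff 0) (fun i => l * c i) with hx₁d
  have hx₁ : fam 1 n x₁ = sc l T := fam_of_CL hcl hS2lead
  have hfx : fx 1 n x₁ = ev (sc l T) := by
    funext w
    unfold fx ev
    rw [hx₁]
  have hcoef : ∀ j, ‖(fam 1 n x₁).coeff j‖ ≤ A ^ (n + 2) * A := by
    intro j
    rw [hx₁]
    rcases Nat.lt_or_ge (n + 1) j with hj | hj
    · rw [coeff_eq_zero_of_natDegree_lt (by rw [k1, hT]; exact hj), norm_zero]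
      positivity
    · rw [k2, norm_mul, norm_mul, norm_pow, norm_inv]
      have h1 : ‖l‖ * ‖l‖⁻¹ ^ j ≤ A ^ (n + 2) := by
        calc ‖l‖ * ‖l‖⁻¹ ^ j ≤ A * A ^ j :=
              mul_le_mul hlA (pow_le_pow_left₀ (by positivity) hlA' _) (by positivity) hA0.le
          _ = A ^ (j + 1) := by rw [pow_succ]; ring
          _ ≤ A ^ (n + 2) := pow_le_pow_right₀ hA (by omega)
      exact mul_le_mul h1 (hTA j) (norm_nonneg _) (by positivity)
  have hl2 : ∀ j ≤ n + 1, ‖l⁻¹ * l ^ j‖ ≤ A ^ (n + 2) := by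
    intro j hj
    rw [norm_mul, norm_inv, norm_pow]
    calc ‖l‖⁻¹ * ‖l‖ ^ j ≤ A * A ^ j :=
          mul_le_mul hlA' (pow_le_pow_left₀ hlp.le hlA _) (by positivity) hA0.le
      _ = A ^ (j + 1) := by rw [pow_succ]; ring
      _ ≤ A ^ (n + 2) := pow_le_pow_right₀ hA (by omega)
  obtain ⟨s, hs⟩ : ∃ s : ℝ, s = A * Real.sqrt (ar + e) := ⟨_, rfl⟩
  have hs2 : s ^ 2 = A ^ 2 * (ar + e) := by
    rw [hs, mul_pow, Real.sq_sqrt (by positivity)]
  have hs0 : 0 < s := by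
    rw [hs]
    exact mul_pos hA0 (Real.sqrt_pos.2 (by positivity))
  have hvol2 : volume {z : ℂ | ¬ Esc (fx 1 n x₁) z} < ENNReal.ofReal (s ^ 2) := by
    rw [hfx, vol_sc hl0, hvol]
    calc ENNReal.ofReal (‖l‖ ^ 2) * ENNReal.ofReal ar
        ≤ ENNReal.ofReal (A ^ 2) * ENNReal.ofReal ar :=
          mul_le_mul' (ENNReal.ofReal_le_ofReal (pow_le_pow_left₀ hlp.le hlA 2)) le_rfl
      _ = ENNReal.ofReal (A ^ 2 * ar) := (ENNReal.ofReal_mul (by positivity)).symm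
      _ < ENNReal.ofReal (s ^ 2) := by
          rw [ENNReal.ofReal_lt_ofReal_iff (by positivity), hs2]
          exact mul_lt_mul_of_pos_left (by linarith) (by positivity)
  have hs3 : A ^ (n + 2) * (C₁ * s) < ε := by
    have e3 : A ^ (n + 2) * (C₁ * s) = A ^ (n + 3) * C₁ * Real.sqrt (ar + e) := by
      rw [hs, pow_succ A (n + 2)]
      ring
    rw [e3]
    exact he
  have hs4 : C₁ * s < ε := by
    refine lt_of_le_of_lt ?_ hs3
    have h1 : 1 ≤ A ^ (n + 2) := one_le_pow₀ hA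
    nlinarith [mul_pos hC₁ hs0]
  -- the coefficients of the rescaled polynomial
  have hcoe : ∀ (x : PE n) (j : ℕ), (sc l⁻¹ (fam 1 n x)).coeff j =
      (l⁻¹ * l ^ j) * (fam 1 n x).coeff j := by
    intro x j
    obtain ⟨-, m2, -⟩ := scl_holds l⁻¹ (fam 1 n x) (inv_ne_zero hl0)
    rw [m2, inv_inv]
  have hcT : ∀ j : ℕ, T.coeff j = (l⁻¹ * l ^ j) * (fam 1 n x₁).coeff j := by
    intro j
    rw [hx₁, k2]
    have h1 : l⁻¹ * l ^ j * (l * l⁻¹ ^ j * T.coeff j) =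
        (l⁻¹ * l) * (l ^ j * l⁻¹ ^ j) * T.coeff j := by ring
    rw [h1, inv_mul_cancel₀ hl0, ← mul_pow, mul_inv_cancel₀ hl0, one_pow, one_mul, one_mul]
  -- the critical points
  have hη0 : 0 < C₁ * s := mul_pos hC₁ hs0
  obtain ⟨ρ₀, hρ₀⟩ : ∃ ρ₀ : ℝ, ρ₀ = (K * (C₁ * s)) ^ (n : ℝ)⁻¹ := ⟨_, rfl⟩
  have hρ₀0 : 0 < ρ₀ := by
    rw [hρ₀]
    exact Real.rpow_pos_of_pos (by positivity) _
  have hroot : ∀ u : ℝ, 0 ≤ u → u ^ n ≤ K * (C₁ * s) → u ≤ ρ₀ := by
    intro u hu h1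
    have h2 := Real.rpow_le_rpow (pow_nonneg hu n) h1 (inv_nonneg.2 (Nat.cast_nonneg (α := ℝ) n))
    rwa [Real.pow_rpow_inv_natCast hu (by omega), ← hρ₀] at h2
  obtain ⟨r, hr0, hr1, hr2⟩ := gap (fun i => x₁ (some i)) hρ₀0
  have hrC : A * r < (A ^ (n + 3) * C₁ + C₂) * ε ^ (n : ℝ)⁻¹ := by
    have h1 : ρ₀ ≤ K ^ (n : ℝ)⁻¹ * ε ^ (n : ℝ)⁻¹ := by
      rw [hρ₀, ← Real.mul_rpow hK.le hε0.le]
      exact Real.rpow_le_rpow (by positivity) (mul_le_mul_of_nonneg_left hs4.le hK.le)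
        (inv_nonneg.2 (Nat.cast_nonneg n))
    have h2 : 0 < ε ^ (n : ℝ)⁻¹ := Real.rpow_pos_of_pos hε0 _
    have h3 : A * r ≤ A * (3 * ((n : ℝ) * n + 1) * (K ^ (n : ℝ)⁻¹ * ε ^ (n : ℝ)⁻¹)) := by
      apply mul_le_mul_of_nonneg_left _ hA0.le
      exact hr1.trans (mul_le_mul_of_nonneg_left h1 (by positivity))
    have h4 : A * (3 * ((n : ℝ) * n + 1) * (K ^ (n : ℝ)⁻¹ * ε ^ (n : ℝ)⁻¹)) =
        C₂ * ε ^ (n : ℝ)⁻¹ := by
      rw [hC₂]
      ring
    rw [h4] at h3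
    rw [add_mul]
    have h5 : 0 < A ^ (n + 3) * C₁ * ε ^ (n : ℝ)⁻¹ := by positivity
    linarith
  have hsep : ∀ y : PE n, (∀ j : ℕ, ‖cf 1 n j y - cf 1 n j x₁‖ ≤ C₁ * s) →
      (∀ i, ‖y (some i) - x₁ (some i)‖ ≤ r) → ∀ i, ‖y (some i) - x₁ (some i)‖ < r := by
    intro y hy hyr i
    obtain ⟨j, hj⟩ := hclose x₁ y (C₁ * s) hcoef (hs4.le.trans hε1) hy i
    have h1 := hroot _ (norm_nonneg _) hj
    have h2 := norm_sub_le_norm_sub_add_norm_sub (x₁ (some i)) (y (some i)) (x₁ (some j))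
    rw [norm_sub_rev (x₁ (some i)) (y (some i))] at h2
    have h3 := hr2 i j (by linarith [hyr i])
    have h4 := norm_sub_le_norm_sub_add_norm_sub (y (some i)) (x₁ (some j)) (x₁ (some i))
    rw [norm_sub_rev (x₁ (some j)) (x₁ (some i))] at h4
    linarith
  -- the equations
  let Ox : Set (PE n) := {x | (∀ j : Fin (n + 2), ‖cf 1 n j x - cf 1 n j x₁‖ < ε ∧
    ‖(l⁻¹ * l ^ (j : ℕ)) * (cf 1 n j x - cf 1 n j x₁)‖ < ε) ∧
    ∀ i : Fin n, ‖x (some i) - x₁ (some i)‖ < r}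
  let Fc : Set (PE n) := {x | ∀ i : Fin n, ‖x (some i) - x₁ (some i)‖ ≤ r}
  have hFc : IsClosed Fc := by
    have : Fc = ⋂ i : Fin n, {x | ‖x (some i) - x₁ (some i)‖ ≤ r} := by
      ext x
      simp only [Fc, mem_ofPred_eq, mem_iInter]
    rw [this]
    refine isClosed_iInter fun i => ?_
    exact isClosed_le ((continuous_apply _).sub continuous_const).norm continuous_const
  have hOF : Ox ⊆ Fc := fun x hx i => (hx.2 i).le
  let b : ℂ := cf 1 n n x₁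
  let cv : PE n → (Fin n → ℂ) × (Fin (n + 2) → ℂ) := fun x =>
    (fun i => l⁻¹ * x (some i), fun j => (l⁻¹ * l ^ (j : ℕ)) * cf 1 n j x)
  let E : Fin (k + 1) → BX n (Fin 0) → ℂ := Fin.snoc (α := fun _ => BX n (Fin 0) → ℂ)
    (fun j z => G j (cv (px z))) (fun z => cf 1 n n (px z) - b)
  have hE1 : ∀ j : Fin k, E j.castSucc = fun z => G j (cv (px z)) := by
    intro j
    simp only [E, Fin.snoc_castSucc]
  have hE2 : E (Fin.last k) = fun z => cf 1 n n (px z) - b := by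
    simp only [E, Fin.snoc_last]
  have hcvd : Differentiable ℂ cv := by
    refine Differentiable.prodMk ?_ ?_
    · rw [differentiable_pi]
      exact fun i => (differentiable_apply _).const_mul _
    · rw [differentiable_pi]
      exact fun j => (cf_diff 1 n j).const_mul _
  have hcs : ∀ x ∈ Ox, ∀ i, ‖l⁻¹ * x (some i) - c i‖ <
      (A ^ (n + 3) * C₁ + C₂) * ε ^ (n : ℝ)⁻¹ := by
    intro x hx i
    have h1 : l⁻¹ * x (some i) - c i = l⁻¹ * (x (some i) - x₁ (some i)) := by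
      show l⁻¹ * x (some i) - c i = l⁻¹ * (x (some i) - l * c i)
      rw [mul_sub, ← mul_assoc, inv_mul_cancel₀ hl0, one_mul]
    rw [h1, norm_mul, norm_inv]
    refine lt_of_le_of_lt ?_ hrC
    exact mul_le_mul hlA' (hx.2 i).le (norm_nonneg _) hA0.le
  have hcvm : ∀ x ∈ Ox, cv x ∈ {p : (Fin n → ℂ) × (Fin (n + 2) → ℂ) |
      (∀ i, ‖p.1 i - c i‖ < (A ^ (n + 3) * C₁ + C₂) * ε ^ (n : ℝ)⁻¹) ∧
      ∀ i, ‖p.2 i - T.coeff i‖ < ε} := by
    intro x hx
    refine ⟨hcs x hx, fun j => ?_⟩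
    show ‖(l⁻¹ * l ^ (j : ℕ)) * cf 1 n j x - T.coeff j‖ < ε
    rw [hcT, ← mul_sub]
    exact (hx.1 j).2
  have hS : St0 1 n ((A ^ (n + 2) * A + 1) / ‖(1 : ℂ)‖ + (A ^ (n + 2) * A + 1) + 2) Ox
      (univ : Set (Fin 0 → ℂ)) univ E b := by
    refine ⟨?_, ?_, isOpen_univ, isCompact_univ, subset_univ _, ?_, fun _ _ _ => mem_univ _, ?_⟩
    · have : Ox = (⋂ j : Fin (n + 2), ({x | ‖cf 1 n j x - cf 1 n j x₁‖ < ε} ∩
          {x | ‖(l⁻¹ * l ^ (j : ℕ)) * (cf 1 n j x - cf 1 n j x₁)‖ < ε})) ∩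
          ⋂ i : Fin n, {x | ‖x (some i) - x₁ (some i)‖ < r} := by
        ext x
        simp only [Ox, mem_ofPred_eq, mem_iInter, mem_inter_iff]
      rw [this]
      refine IsOpen.inter (isOpen_iInter_of_finite fun j => ?_)
        (isOpen_iInter_of_finite fun i => ?_)
      · have hc := (cf_diff 1 n (j : ℕ)).continuous
        exact (isOpen_lt (hc.sub continuous_const).norm continuous_const).inter
          (isOpen_lt (continuous_const.mul (hc.sub continuous_const)).norm continuous_const)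
      · exact isOpen_lt ((continuous_apply _).sub continuous_const).norm continuous_const
    · intro x hx
      apply TVFAM.bdd n one_ne_zero (by positivity)
      intro j hj
      have h1 : ‖(fam 1 n x).coeff j - (fam 1 n x₁).coeff j‖ < ε := (hx.1 ⟨j, hj⟩).1
      have h2 := hcoef j
      have h4 : ‖(fam 1 n x).coeff j‖ ≤
          ‖(fam 1 n x).coeff j - (fam 1 n x₁).coeff j‖ + ‖(fam 1 n x₁).coeff j‖ := by
        have := norm_add_le ((fam 1 n x).coeff j - (fam 1 n x₁).coeff j) ((fam 1 n x₁).coeff j)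
        rwa [sub_add_cancel] at this
      linarith
    · intro j
      refine Fin.lastCases ?_ (fun j => ?_) j
      · rw [hE2]
        exact (((cf_diff 1 n n).comp px_diff).sub_const _).differentiableOn
      · rw [hE1]
        exact DifferentiableOn.comp (g := G j) (f := fun z : BX n (Fin 0) => cv (px z)) (hG j)
          (hcvd.comp px_diff).differentiableOn fun z hz => hcvm _ hz.1
    · intro z _ hz
      have h1 := hz (Fin.last k)
      rw [hE2] at h1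
      exact sub_eq_zero.1 h1
  have hx₁O : x₁ ∈ Ox := by
    refine ⟨fun j => ?_, fun i => ?_⟩
    · simp only [sub_self, mul_zero, norm_zero]
      exact ⟨hε0, hε0⟩
    · rw [sub_self, norm_zero]
      exact hr0
  have hcv₁ : cv x₁ = (c, fun i : Fin (n + 2) => T.coeff i) := by
    refine Prod.ext ?_ ?_
    · funext i
      show l⁻¹ * (l * c i) = c i
      rw [← mul_assoc, inv_mul_cancel₀ hl0, one_mul]
    · funext j
      exact (hcT j).symm
  obtain ⟨z, hzO, hzE, hzc, J, hJ, hesc, hdis⟩ := hV1 hS (pr x₁ 0) ⟨hx₁O, mem_univ _⟩ (by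
      intro j
      refine Fin.lastCases ?_ (fun j => ?_) j
      · rw [hE2]
        show cf 1 n n x₁ - b = 0
        exact sub_self _
      · rw [hE1]
        show G j (cv x₁) = 0
        rw [hcv₁]
        exact hG0 j) s hs0 hvol2 hFc hOF (by
      intro y hy
      refine ⟨?_, fun hyF => ⟨fun j => ?_, hsep y hy hyF⟩⟩
      · apply TVFAM.bdd n one_ne_zero (by positivity)
        intro j hj
        have h1 : ‖(fam 1 n y).coeff j - (fam 1 n x₁).coeff j‖ ≤ C₁ * s := hy j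
        have h2 := hcoef j
        have h4 : ‖(fam 1 n y).coeff j‖ ≤
            ‖(fam 1 n y).coeff j - (fam 1 n x₁).coeff j‖ + ‖(fam 1 n x₁).coeff j‖ := by
          have := norm_add_le ((fam 1 n y).coeff j - (fam 1 n x₁).coeff j) ((fam 1 n x₁).coeff j)
          rwa [sub_add_cancel] at this
        linarith
      · have h1 : ‖cf 1 n j y - cf 1 n j x₁‖ ≤ C₁ * s := hy j
        refine ⟨lt_of_le_of_lt h1 hs4, ?_⟩
        rw [norm_mul]
        refine lt_of_le_of_lt ?_ hs3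
        exact mul_le_mul (hl2 j (by have := j.2; omega)) h1 (norm_nonneg _) (by positivity))
  set x := px z with hx
  obtain ⟨m1, m2, -, -, -⟩ := scl_holds l⁻¹ (fam 1 n x) (inv_ne_zero hl0)
  have hdeg : (sc l⁻¹ (fam 1 n x)).natDegree = n + 1 := by
    rw [m1, natDegree_fam one_ne_zero]
  have hcvS : cv x = (fun i => l⁻¹ * x (some i), fun i : Fin (n + 2) =>
      (sc l⁻¹ (fam 1 n x)).coeff i) := by
    refine Prod.ext rfl ?_
    funext j
    exact (hcoe x j).symm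
  refine ⟨sc l⁻¹ (fam 1 n x), fun i => l⁻¹ * x (some i),
    CL_sc (CL_fam one_ne_zero x) (inv_ne_zero hl0), ?_, ?_, ?_, hcs x hzO.1, ?_, J, ?_, ?_⟩
  · rw [Polynomial.leadingCoeff, hdeg, m2, inv_inv, coeff_fam_top, mul_one, pow_succ, ← hl]
    field_simp
  · rw [hcoe, hcT]
    congr 1
    exact hS.cen z hzO hzE
  · intro j
    rcases Nat.lt_or_ge (n + 1) j with hj | hj
    · rw [coeff_eq_zero_of_natDegree_lt (by rw [hdeg]; exact hj),
        coeff_eq_zero_of_natDegree_lt (by rw [hT]; exact hj), sub_zero, norm_zero]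
      exact hε0
    · rw [hcoe, hcT, ← mul_sub, norm_mul]
      refine lt_of_le_of_lt ?_ hs3
      exact mul_le_mul (hl2 j hj) (hzc j) (norm_nonneg _) (by positivity)
  · intro j
    have h1 := hzE j.castSucc
    rw [hE1] at h1
    rw [← hcvS]
    exact h1
  · rw [Fintype.card_fin] at hJ
    omega
  · exact FE_sc (T := fam 1 n x) (c := fun i => x (some i)) ⟨hesc, hdis⟩ (inv_ne_zero hl0)

end Pool.Agent.H207.GP
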