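import Mathlib
import Pool.Agent.H207.GP.Coef

/-! Project GP: critical orbit relations. -/

set_option autoImplicit false

open Topology Filter Metric Set Polynomial MeasureTheory
open Pool.Agent.H713R3.ZA Pool.Agent.H713R5.QJ
open Pool.Agent.X167.Sh (Esc)
open Pool.Agent.K4H48.ST (CL)

namespace Pool.Agent.H207.GP

/-- the polynomial with the given coefficients -/
noncomputable def evw {n : ℕ} (w : Fin (n + 2) → ℂ) (z : ℂ) : ℂ := ∑ j : Fin (n + 2), w j * z ^ (j : ℕ)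

theorem evw_coeff {n : ℕ} {T : ℂ[X]} (hT : T.natDegree = n + 1) :
    evw (fun j : Fin (n + 2) => T.coeff j) = ev T := by
  funext z
  unfold evw ev
  rw [Polynomial.eval_eq_sum_range' (show T.natDegree < n + 2 by omega), Finset.sum_range]

theorem iter_diff {n : ℕ} (i : Fin n) (m : ℕ) :
    Differentiable ℂ (fun p : (Fin n → ℂ) × (Fin (n + 2) → ℂ) => (evw p.2)^[m] (p.1 i)) := by
  induction m with
  | zero => exact differentiable_pi.1 differentiable_fst i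
  | succ m ih =>
    have h : (fun p : (Fin n → ℂ) × (Fin (n + 2) → ℂ) => (evw p.2)^[m + 1] (p.1 i)) =
        fun p => ∑ j : Fin (n + 2), p.2 j * ((evw p.2)^[m] (p.1 i)) ^ (j : ℕ) := by
      funext p
      rw [Function.iterate_succ_apply']
      rfl
    rw [h]
    refine Differentiable.fun_sum fun j _ => ?_
    exact (differentiable_pi.1 differentiable_snd j).mul (ih.pow _)

theorem relA (n : ℕ) (A : ℝ) (hn : 1 ≤ n) (hA : 1 ≤ A) : ∃ C : ℝ, 0 < C ∧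
    ∀ (T : ℂ[X]) (c : Fin n → ℂ), CL T c →
    (∀ j : ℕ, ‖T.coeff j‖ ≤ A) → 1 / A ≤ ‖T.leadingCoeff‖ →
    ∀ ε : ℝ, C * Real.sqrt (volume {z : ℂ | ¬ Esc (ev T) z}).toReal < ε → ε ≤ 1 →
    ∀ (k : ℕ) (i j : Fin k → Fin n) (a b : Fin k → ℕ),
      (∀ r, (ev T)^[a r] (c (i r)) = (ev T)^[b r] (c (j r))) →
      ∃ (S : ℂ[X]) (s : Fin n → ℂ), CL S s ∧ S.leadingCoeff = T.leadingCoeff ∧
        S.coeff n = T.coeff n ∧
        (∀ j : ℕ, ‖S.coeff j - T.coeff j‖ < ε) ∧ (∀ i, ‖s i - c i‖ < C * ε ^ (n : ℝ)⁻¹) ∧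
        (∀ r, (ev S)^[a r] (s (i r)) = (ev S)^[b r] (s (j r))) ∧
        ∃ J : Finset (Fin n), n ≤ k + J.card ∧ FE S s J := by
  obtain ⟨C, hC, hmain⟩ := coefA n A hn hA
  refine ⟨C, hC, ?_⟩
  intro T c hTc hTA hTl ε hε hε1 k i j a b hrel
  obtain ⟨S, s, hS, h1, h2, h3, h3', h4, J, hJ, hFE⟩ := hmain T c hTc hTA hTl ε hε hε1 k
    (fun r p => (evw p.2)^[a r] (p.1 (i r)) - (evw p.2)^[b r] (p.1 (j r)))
    (fun r => ((iter_diff (i r) (a r)).sub (iter_diff (j r) (b r))).differentiableOn) (by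
      intro r
      show (evw fun i : Fin (n + 2) => T.coeff i)^[a r] (c (i r)) -
        (evw fun i : Fin (n + 2) => T.coeff i)^[b r] (c (j r)) = 0
      rw [evw_coeff hTc.1, hrel, sub_self])
  refine ⟨S, s, hS, h1, h2, h3, h3', fun r => ?_, J, hJ, hFE⟩
  have h5 := h4 r
  change (evw fun i : Fin (n + 2) => S.coeff i)^[a r] (s (i r)) -
        (evw fun i : Fin (n + 2) => S.coeff i)^[b r] (s (j r)) = 0 at h5
  rw [evw_coeff hS.1] at h5
  exact sub_eq_zero.1 h5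

/-- preperiodic points do not escape -/
theorem preper_notEsc {f : ℂ → ℂ} {u : ℂ} {a b : ℕ} (hab : a < b) (h : f^[a] u = f^[b] u) :
    ¬ Esc f u := by
  intro hE
  obtain ⟨p, rfl⟩ : ∃ p, b = a + p := ⟨b - a, by omega⟩
  have hp : 0 < p := by omega
  have h1 : ∀ m : ℕ, f^[a + m * p] u = f^[a] u := by
    intro m
    induction m with
    | zero => simp
    | succ m ih =>
      have e : a + (m + 1) * p = m * p + (a + p) := by ring
      rw [e, Function.iterate_add_apply, ← h, ← Function.iterate_add_apply, add_comm (m * p) a, ih]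
  have h2 : Tendsto (fun m : ℕ => a + m * p) atTop atTop := by
    refine tendsto_atTop_mono (f := fun m : ℕ => m) (fun m => ?_) tendsto_id
    have : m * 1 ≤ m * p := Nat.mul_le_mul_left m hp
    omega
  have h3 := hE.comp h2
  have h4 : (fun k : ℕ => ‖f^[k] u‖) ∘ (fun m : ℕ => a + m * p) = fun _ => ‖f^[a] u‖ := by
    funext m
    show ‖f^[a + m * p] u‖ = _
    rw [h1]
  rw [h4] at h3
  exact not_tendsto_const_atTop _ _ h3

theorem preA (n : ℕ) (A : ℝ) (hn : 1 ≤ n) (hA : 1 ≤ A) : ∃ C : ℝ, 0 < C ∧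
    ∀ (T : ℂ[X]) (c : Fin n → ℂ), CL T c →
    (∀ j : ℕ, ‖T.coeff j‖ ≤ A) → 1 / A ≤ ‖T.leadingCoeff‖ →
    ∀ ε : ℝ, C * Real.sqrt (volume {z : ℂ | ¬ Esc (ev T) z}).toReal < ε → ε ≤ 1 →
    ∀ (P : Finset (Fin n)) (a b : Fin n → ℕ),
      (∀ i ∈ P, a i < b i ∧ (ev T)^[a i] (c i) = (ev T)^[b i] (c i)) →
      ∃ (S : ℂ[X]) (s : Fin n → ℂ), CL S s ∧ S.leadingCoeff = T.leadingCoeff ∧
        S.coeff n = T.coeff n ∧
        (∀ j : ℕ, ‖S.coeff j - T.coeff j‖ < ε) ∧ (∀ i, ‖s i - c i‖ < C * ε ^ (n : ℝ)⁻¹) ∧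
        (∀ i ∈ P, (ev S)^[a i] (s i) = (ev S)^[b i] (s i)) ∧ FE S s Pᶜ := by
  classical
  obtain ⟨C, hC, hmain⟩ := relA n A hn hA
  refine ⟨C, hC, ?_⟩
  intro T c hTc hTA hTl ε hε hε1 P a b hP
  let e : Fin P.card ≃ P := P.equivFin.symm
  obtain ⟨S, s, hS, h1, h2, h3, h3', h4, J, hJ, hFE⟩ := hmain T c hTc hTA hTl ε hε hε1 P.card
    (fun r => (e r : Fin n)) (fun r => (e r : Fin n)) (fun r => a (e r)) (fun r => b (e r))
    (fun r => (hP _ (e r).2).2)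
  have h5 : ∀ i ∈ P, (ev S)^[a i] (s i) = (ev S)^[b i] (s i) := by
    intro i hi
    have h6 := h4 (e.symm ⟨i, hi⟩)
    simp only [Equiv.apply_symm_apply] at h6
    exact h6
  refine ⟨S, s, hS, h1, h2, h3, h3', h5, ?_⟩
  have hsub : J ⊆ Pᶜ := by
    intro i hi
    rw [Finset.mem_compl]
    intro hiP
    exact preper_notEsc (hP i hiP).1 (h5 i hiP) (hFE.1 i hi)
  have hcard : (Pᶜ).card ≤ J.card := by
    rw [Finset.card_compl, Fintype.card_fin]
    omega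
  rw [← Finset.eq_of_subset_of_card_le hsub hcard]
  exact hFE

end Pool.Agent.H207.GP
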