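import Mathlib
import Pool.Agent.H207.GP.Coef
import Pool.Agent.H207.GF.Fam

/-! Project GP: zero area, equations with auxiliary unknowns. -/

set_option autoImplicit false

open Topology Filter Metric Set Polynomial MeasureTheory
open Pool.Agent.H713R3.ZA Pool.Agent.H713R5.QJ
open Pool.Agent.X167.Sh (Esc)
open Pool.Agent.K4H48.ST (CL)
open Pool.Agent.H207.GF (proper_of)

namespace Pool.Agent.H207.GP

/-- the vector of the coefficients -/
noncomputable def cfv {n : ℕ} (x : PE n) : Fin (n + 2) → ℂ := fun j => cf 1 n j x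

theorem cfv_diff {n : ℕ} : Differentiable ℂ (cfv : PE n → Fin (n + 2) → ℂ) := by
  rw [differentiable_pi]
  exact fun j => cf_diff 1 n j

/-- equations with auxiliary unknowns, near an isolated solution -/
theorem auxE {n : ℕ} (hn : 1 ≤ n) {x₁ : PE n}
    (h0 : volume {z : ℂ | ¬ Esc (fx 1 n x₁) z} = 0) {q k : ℕ} {Ot : Set (Fin q → ℂ)}
    (hOt : IsOpen Ot) {G : Fin k → (Fin (n + 2) → ℂ) × (Fin q → ℂ) → ℂ} {t₁ : Fin q → ℂ}
    {r₀ ρ : ℝ} (hr₀ : 0 < r₀) (hρ : 0 < ρ) (hρO : closedBall t₁ ρ ⊆ Ot)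
    (hG : ∀ j, DifferentiableOn ℂ (G j) (ball (cfv x₁) r₀ ×ˢ Ot))
    (hu : ∀ t ∈ closedBall t₁ ρ, (∀ j, G j (cfv x₁, t) = 0) → t = t₁)
    (h₁ : ∀ j, G j (cfv x₁, t₁) = 0) {ε : ℝ} (hε : 0 < ε) :
    ∃ (x : PE n) (t : Fin q → ℂ), ‖cfv x - cfv x₁‖ < ε ∧ ‖t - t₁‖ < ε ∧ t ∈ closedBall t₁ ρ ∧
      (∀ j, G j (cfv x, t) = 0) ∧ cf 1 n n x = cf 1 n n x₁ ∧
      ∃ J : Finset (Fin n), n + q ≤ k + J.card ∧ FE (fam 1 n x) (fun i => x (some i)) J := by
  -- the radii
  obtain ⟨ρ', hρ', hρ1, hρ2⟩ : ∃ ρ' : ℝ, 0 < ρ' ∧ ρ' ≤ ρ ∧ ρ' ≤ ε :=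
    ⟨min ρ ε, lt_min hρ hε, min_le_left _ _, min_le_right _ _⟩
  have hballs : closedBall t₁ ρ' ⊆ closedBall t₁ ρ := closedBall_subset_closedBall hρ1
  obtain ⟨r', hr', hr'0, hprop⟩ := proper_of (G := G) (x₁ := cfv x₁) (t₁ := t₁) hr₀ hρ'
    (fun j => (hG j).continuousOn.mono (prod_mono_right (hballs.trans hρO)))
    (fun t ht h => hu t (hballs ht) h)
  obtain ⟨r, hr, hr1, hr2, hr3⟩ : ∃ r : ℝ, 0 < r ∧ r ≤ r' ∧ r ≤ ε ∧ r ≤ 1 :=
    ⟨min r' (min ε 1), lt_min hr' (lt_min hε one_pos), min_le_left _ _,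
      (min_le_right _ _).trans (min_le_left _ _), (min_le_right _ _).trans (min_le_right _ _)⟩
  -- the ball
  have hA0 : 0 ≤ ‖cfv x₁‖ := norm_nonneg _
  obtain ⟨C, hC, hV⟩ := engine hh (a := 1) (n := n) one_ne_zero hn
    (B := (‖cfv x₁‖ + 1) / ‖(1 : ℂ)‖ + (‖cfv x₁‖ + 1) + 2) (by positivity)
  let Ox : Set (PE n) := {x | cfv x ∈ ball (cfv x₁) r}
  let b : ℂ := cf 1 n n x₁
  let E : Fin (k + 1) → BX n (Fin q) → ℂ := Fin.snoc (α := fun _ => BX n (Fin q) → ℂ)
    (fun j z => G j (cfv (px z), pt z)) (fun z => cf 1 n n (px z) - b)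
  have hE1 : ∀ j : Fin k, E j.castSucc = fun z => G j (cfv (px z), pt z) := by
    intro j
    simp only [E, Fin.snoc_castSucc]
  have hE2 : E (Fin.last k) = fun z => cf 1 n n (px z) - b := by
    simp only [E, Fin.snoc_last]
  have hsub : closedBall t₁ (ρ' / 2) ⊆ ball t₁ ρ' := closedBall_subset_ball (by linarith)
  have hOxr : ∀ x ∈ Ox, cfv x ∈ ball (cfv x₁) r' := fun x hx => ball_subset_ball hr1 hx
  have hS : St0 1 n ((‖cfv x₁‖ + 1) / ‖(1 : ℂ)‖ + (‖cfv x₁‖ + 1) + 2) Ox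
      (ball t₁ ρ') (closedBall t₁ (ρ' / 2)) E b := by
    refine ⟨isOpen_ball.preimage cfv_diff.continuous, ?_, isOpen_ball, isCompact_closedBall _ _,
      hsub, ?_, ?_, ?_⟩
    · intro x hx
      apply TVFAM.bdd n one_ne_zero (by positivity)
      intro j hj
      have h1 : ‖cfv x - cfv x₁‖ < r := by
        rw [← dist_eq_norm]
        exact hx
      have h2 : ‖(fam 1 n x).coeff j‖ ≤ ‖cfv x‖ := norm_le_pi_norm (cfv x) ⟨j, hj⟩
      have h3 : ‖cfv x‖ ≤ ‖cfv x - cfv x₁‖ + ‖cfv x₁‖ := by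
        have := norm_add_le (cfv x - cfv x₁) (cfv x₁)
        rwa [sub_add_cancel] at this
      linarith
    · intro j
      refine Fin.lastCases ?_ (fun j => ?_) j
      · rw [hE2]
        exact (((cf_diff 1 n n).comp px_diff).sub_const _).differentiableOn
      · rw [hE1]
        refine DifferentiableOn.comp (g := G j)
          (f := fun z : BX n (Fin q) => (cfv (px z), pt z)) (hG j)
          ((cfv_diff.comp px_diff).prodMk pt_diff).differentiableOn ?_
        intro z hz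
        exact ⟨ball_subset_ball hr'0 (hOxr _ hz.1), hρO (hballs (ball_subset_closedBall hz.2))⟩
    · intro z hz hEz
      refine hprop (cfv (px z)) (hOxr _ hz.1) (pt z) hz.2 fun j => ?_
      have h1 := hEz j.castSucc
      rw [hE1] at h1
      exact h1
    · intro z _ hz
      have h1 := hz (Fin.last k)
      rw [hE2] at h1
      exact sub_eq_zero.1 h1
  have hs : 0 < r / (2 * C) := by positivity
  have hCs : C * (r / (2 * C)) = r / 2 := by
    field_simp
  obtain ⟨z, hzO, hzE, hzc, J, hJ, hesc, hdis⟩ := hV hS (pr x₁ t₁)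
    ⟨mem_ball_self hr, mem_ball_self hρ'⟩ (by
      intro j
      refine Fin.lastCases ?_ (fun j => ?_) j
      · rw [hE2]
        show cf 1 n n x₁ - b = 0
        exact sub_self _
      · rw [hE1]
        exact h₁ j) (r / (2 * C)) hs (by
      show volume {z : ℂ | ¬ Esc (fx 1 n x₁) z} < _
      rw [h0, ENNReal.ofReal_pos]
      positivity) isClosed_univ (subset_univ _) (by
      intro y hy
      rw [hCs] at hy
      suffices hyO : y ∈ Ox from ⟨hS.OxB hyO, fun _ => hyO⟩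
      show cfv y ∈ ball (cfv x₁) r
      rw [mem_ball, dist_eq_norm]
      refine lt_of_le_of_lt ?_ (half_lt_self hr)
      rw [pi_norm_le_iff_of_nonneg (half_pos hr).le]
      exact fun j => hy j)
  refine ⟨px z, pt z, ?_, ?_, ?_, ?_, hS.cen z hzO hzE, J, by rw [Fintype.card_fin] at hJ; omega,
    hesc, hdis⟩
  · have h1 : cfv (px z) ∈ ball (cfv x₁) r := hzO.1
    rw [mem_ball, dist_eq_norm] at h1
    exact lt_of_lt_of_le h1 hr2
  · have h1 : pt z ∈ ball t₁ ρ' := hzO.2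
    rw [mem_ball, dist_eq_norm] at h1
    exact lt_of_lt_of_le h1 hρ2
  · exact hballs (ball_subset_closedBall hzO.2)
  · intro j
    have h1 := hzE j.castSucc
    rw [hE1] at h1
    exact h1

end Pool.Agent.H207.GP
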