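import Mathlib
import Pool.Agent.H207.GP.Rel
import Pool.Agent.H207.GP.Unk

/-! Project GP: holomorphic families of polynomials. -/

set_option autoImplicit false

open Topology Filter Metric Set Polynomial MeasureTheory
open Pool.Agent.H713R3.ZA Pool.Agent.H713R5.QJ
open Pool.Agent.X167.Sh (Esc vol_sc)
open Pool.Agent.K4H48.ST (CL CL_fam sc_eval)

namespace Pool.Agent.H207.GP

/-- a semiconjugacy at finitely many points -/
theorem semi_of {n : ℕ} {f T : ℂ[X]} (hf : f.natDegree = n + 1) (hT : T.natDegree = n + 1)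
    {α β : ℂ} (h : ∀ i : Fin (n + 2), f.eval (α * (i : ℕ) + β) = α * T.eval ((i : ℕ) : ℂ) + β) :
    f.comp (C α * X + C β) = C α * T + C β := by
  classical
  have h1 : (C α * X + C β : ℂ[X]).natDegree ≤ 1 := by
    refine (natDegree_add_le _ _).trans (max_le ?_ ?_)
    · exact (natDegree_C_mul_le _ _).trans natDegree_X_le
    · rw [natDegree_C]; omega
  refine Polynomial.eq_of_natDegree_lt_card_of_eval_eq' _ _
    ((Finset.range (n + 2)).image fun i : ℕ => (i : ℂ)) ?_ ?_
  · intro z hz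
    obtain ⟨i, hi, rfl⟩ := Finset.mem_image.1 hz
    have h2 := h ⟨i, Finset.mem_range.1 hi⟩
    simp only [eval_comp, eval_add, eval_mul, eval_C, eval_X]
    exact h2
  · rw [Finset.card_image_of_injective _ Nat.cast_injective, Finset.card_range]
    refine max_lt ?_ ?_
    · refine lt_of_le_of_lt natDegree_comp_le ?_
      rw [hf]
      have := Nat.mul_le_mul_left (n + 1) h1
      omega
    · refine lt_of_le_of_lt (natDegree_add_le _ _) (max_lt ?_ ?_)
      · refine lt_of_le_of_lt (natDegree_C_mul_le _ _) ?_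
        omega
      · rw [natDegree_C]; omega

theorem lead_of {n : ℕ} {f T : ℂ[X]} (hf : f.natDegree = n + 1) (hf1 : f.leadingCoeff = 1)
    (hT : T.natDegree = n + 1) {α β : ℂ} (hα : α ≠ 0)
    (h : f.comp (C α * X + C β) = C α * T + C β) : α ^ n = T.leadingCoeff := by
  have h1 : (C α * X + C β : ℂ[X]).natDegree = 1 := natDegree_linear hα
  have h2 : (C α * X + C β : ℂ[X]).leadingCoeff = α := leadingCoeff_linear hα
  have h3 := leadingCoeff_comp (p := f) (q := C α * X + C β) (by rw [h1]; omega)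
  rw [hf1, h2, hf, one_mul] at h3
  have h4 : (f.comp (C α * X + C β)).natDegree = n + 1 := by
    rw [natDegree_comp, hf, h1, mul_one]
  rw [Polynomial.leadingCoeff, h4, h] at h3
  rw [coeff_add, coeff_C_mul, coeff_C_succ, add_zero] at h3
  rw [Polynomial.leadingCoeff, hT]
  refine mul_left_cancel₀ hα ?_
  rw [h3, pow_succ, mul_comm]

/-- a polynomial of degree at least two does not commute with translations -/
theorem shift_zero {f : ℂ[X]} (hf : 2 ≤ f.natDegree) {β : ℂ}
    (h : ∀ w : ℂ, f.eval (w + β) = f.eval w + β) : β = 0 := by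
  by_contra hβ
  have h1 : ∀ k : ℕ, f.eval ((k : ℂ) * β) = f.eval 0 + k * β := by
    intro k
    induction k with
    | zero => simp
    | succ k ih =>
      have e : ((k + 1 : ℕ) : ℂ) * β = k * β + β := by push_cast; ring
      rw [e, h, ih]
      ring
  have h2 : f - X - C (f.eval 0) = 0 := by
    apply Polynomial.eq_zero_of_infinite_isRoot
    refine Set.Infinite.mono ?_ (Set.infinite_range_of_injective
      (f := fun k : ℕ => (k : ℂ) * β) ?_)
    · rintro _ ⟨k, rfl⟩
      show IsRoot _ _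
      rw [IsRoot.def, eval_sub, eval_sub, eval_X, eval_C, h1]
      ring
    · intro k k' hkk
      exact Nat.cast_injective (mul_right_cancel₀ hβ hkk)
  have h3 : f = X + C (f.eval 0) := by
    have := sub_eq_zero.1 h2
    rw [← this]
    ring
  rw [h3, natDegree_X_add_C] at hf
  omega

/-- critical points under an affine conjugacy -/
theorem CL_conj {n : ℕ} (x : PE n) {T : ℂ[X]} (hT : T.natDegree = n + 1) {α β : ℂ} (hα : α ≠ 0)
    (h : (fam 1 n x).comp (C α * X + C β) = C α * T + C β) :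
    CL T (fun i : Fin n => (x (some i) - β) / α) := by
  refine ⟨hT, ?_⟩
  have hlead : (fam 1 n x).leadingCoeff = 1 := by
    rw [Polynomial.leadingCoeff, natDegree_fam one_ne_zero, coeff_fam_top]
  have h1 := lead_of (natDegree_fam one_ne_zero n x) hlead hT hα h
  rw [← h1]
  have h2 := congrArg derivative h
  rw [derivative_comp, derivative_fam, derivative_add, derivative_C_mul, derivative_C, add_zero,
    derivative_add, derivative_C_mul, derivative_X, mul_one, derivative_C, add_zero] at h2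
  have h3 : derivative T = (dfam 1 n x).comp (C α * X + C β) :=
    (mul_left_cancel₀ (C_ne_zero.2 hα) h2).symm
  rw [h3]
  unfold dfam
  rw [mul_comp, C_comp, Polynomial.prod_comp]
  have h4 : ∀ i : Fin n, (X - C (x (some i)) : ℂ[X]).comp (C α * X + C β) =
      C α * (X - C ((x (some i) - β) / α)) := by
    intro i
    rw [sub_comp, X_comp, C_comp, mul_sub, ← C_mul, mul_div_cancel₀ _ hα, C_sub]
    ring
  rw [Finset.prod_congr rfl (fun i _ => h4 i), Finset.prod_mul_distrib, Finset.prod_const,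
    Finset.card_univ, Fintype.card_fin, ← C_pow, ← mul_assoc, ← C_mul, one_mul]

theorem FE_conj {n : ℕ} (x : PE n) {T : ℂ[X]} {α β : ℂ} (hα : α ≠ 0)
    (h : (fam 1 n x).comp (C α * X + C β) = C α * T + C β) {J : Finset (Fin n)}
    (hF : FE (fam 1 n x) (fun i => x (some i)) J) :
    FE T (fun i : Fin n => (x (some i) - β) / α) J := by
  have hs : Function.Semiconj (fun z : ℂ => α * z + β) (ev T) (ev (fam 1 n x)) := by
    intro z
    have h1 := congrArg (fun p : ℂ[X] => p.eval z) h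
    simp only [eval_comp, eval_add, eval_mul, eval_C, eval_X] at h1
    exact h1.symm
  have hc : ∀ i : Fin n, α * ((x (some i) - β) / α) + β = x (some i) := by
    intro i
    rw [mul_div_cancel₀ _ hα]
    ring
  have hit : ∀ (p : ℕ) (i : Fin n), (ev (fam 1 n x))^[p] (x (some i)) =
      α * (ev T)^[p] ((x (some i) - β) / α) + β := by
    intro p i
    have h1 := (hs.iterate_right p) ((x (some i) - β) / α)
    simp only [hc] at h1
    exact h1.symm
  refine ⟨fun i hi => ?_, fun i hi i' hi' hii' p q he => ?_⟩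
  · have h1 : Tendsto (fun p : ℕ => ‖(ev (fam 1 n x))^[p] (x (some i))‖) atTop atTop := hF.1 i hi
    have h2 : Tendsto (fun p : ℕ => (‖(ev (fam 1 n x))^[p] (x (some i))‖ - ‖β‖) / ‖α‖) atTop
        atTop := (tendsto_atTop_add_const_right _ _ h1).atTop_div_const (norm_pos_iff.2 hα)
    refine tendsto_atTop_mono (fun p => ?_) h2
    rw [div_le_iff₀ (norm_pos_iff.2 hα), hit]
    have h3 := norm_add_le (α * (ev T)^[p] ((x (some i) - β) / α)) β
    rw [norm_mul, mul_comm ‖α‖] at h3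
    linarith
  · apply hF.2 i hi i' hi' hii' p q
    rw [hit, hit, he]

theorem root_iso {n : ℕ} (hn : 1 ≤ n) {c : ℂ} : ∃ δ : ℝ, 0 < δ ∧ ∀ α : ℂ, ‖α - c‖ ≤ δ →
    α ^ n = c ^ n → α = c := by
  have hfin : {α : ℂ | α ^ n = c ^ n}.Finite := by
    have h0 : (X ^ n - C (c ^ n) : ℂ[X]) ≠ 0 := by
      intro h
      have h1 := congrArg (fun p : ℂ[X] => p.coeff n) h
      simp only [coeff_sub, coeff_X_pow, if_true, coeff_C, coeff_zero] at h1
      rw [if_neg (by omega), sub_zero] at h1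
      exact one_ne_zero h1
    refine ((X ^ n - C (c ^ n) : ℂ[X]).rootSet_finite ℂ).subset ?_
    intro w hw
    rw [mem_rootSet]
    refine ⟨h0, ?_⟩
    have hw' : w ^ n = c ^ n := hw
    simp [hw']
  have h1 : IsOpen ({α : ℂ | α ^ n = c ^ n} \ {c})ᶜ := (hfin.subset sdiff_subset).isClosed.isOpen_compl
  obtain ⟨δ, hδ, hb⟩ := Metric.isOpen_iff.1 h1 c (by simp)
  refine ⟨δ / 2, half_pos hδ, fun α h2 h3 => ?_⟩
  by_contra hne
  have h4 : α ∈ ball c δ := by
    rw [mem_ball, dist_eq_norm]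
    linarith
  exact hb h4 ⟨h3, hne⟩

theorem famB {n m k : ℕ} (hn : 1 ≤ n) {Λ : Set (Fin m → ℂ)} (hΛ : IsOpen Λ)
    {P : (Fin m → ℂ) → ℂ[X]} (hP : ∀ j, DifferentiableOn ℂ (fun l => (P l).coeff j) Λ)
    (hdeg : ∀ l ∈ Λ, (P l).natDegree = n + 1) {G : Fin k → (Fin m → ℂ) → ℂ}
    (hG : ∀ j, DifferentiableOn ℂ (G j) Λ) {l₀ : Fin m → ℂ} (hl₀ : l₀ ∈ Λ)
    (hG₀ : ∀ j, G j l₀ = 0) {r₁ : ℝ} (hr₁ : 0 < r₁)
    (hiso : ∀ l ∈ Λ, ‖l - l₀‖ < r₁ → (∀ j, G j l = 0) →
      (∃ α β : ℂ, α ≠ 0 ∧ ∀ z, (P l).eval (α * z + β) = α * (P l₀).eval z + β) → l = l₀)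
    (h0 : volume {z : ℂ | ¬ Esc (ev (P l₀)) z} = 0) {ε : ℝ} (hε : 0 < ε) :
    ∃ l ∈ Λ, ‖l - l₀‖ < ε ∧ (∀ j, G j l = 0) ∧ ∃ (c : Fin n → ℂ) (J : Finset (Fin n)),
      CL (P l) c ∧ m ≤ k + J.card ∧ FE (P l) c J := by
  -- the base point
  have hd₀ := hdeg l₀ hl₀
  obtain ⟨α₀, hα₀⟩ := IsAlgClosed.exists_pow_nat_eq (P l₀).leadingCoeff (by omega : 0 < n)
  have hlead0 : (P l₀).leadingCoeff ≠ 0 := by
    rw [Polynomial.leadingCoeff_ne_zero]
    intro h
    rw [h, natDegree_zero] at hd₀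
    omega
  have hα₀0 : α₀ ≠ 0 := by
    rintro rfl
    rw [zero_pow (by omega)] at hα₀
    exact hlead0 hα₀.symm
  obtain ⟨k1, k2, -, -, -⟩ := scl_holds α₀ (P l₀) hα₀0
  have htop : (sc α₀ (P l₀)).coeff (n + 1) = 1 := by
    have h1 : (P l₀).coeff (n + 1) = (P l₀).leadingCoeff := by
      rw [Polynomial.leadingCoeff, hd₀]
    rw [k2, h1, ← hα₀, pow_succ, inv_pow]
    field_simp
  obtain ⟨x₁, hx₁⟩ := surj_holds n (sc α₀ (P l₀)) hn (by rw [k1, hd₀])
  rw [htop] at hx₁
  have hfx : fx 1 n x₁ = ev (sc α₀ (P l₀)) := by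
    funext w
    unfold fx ev
    rw [hx₁]
  have hrel₀ : ∀ z, (fam 1 n x₁).eval (α₀ * z) = α₀ * (P l₀).eval z := by
    intro z
    rw [hx₁, sc_eval, ← mul_assoc, inv_mul_cancel₀ hα₀0, one_mul]
  have hvol : volume {z : ℂ | ¬ Esc (fx 1 n x₁) z} = 0 := by
    rw [hfx, vol_sc hα₀0, h0, mul_zero]
  -- the unknowns
  let Lm : (Fin (m + 2) → ℂ) → (Fin m → ℂ) := fun t i => t (Fin.castAdd 2 i)
  let al : (Fin (m + 2) → ℂ) → ℂ := fun t => t (Fin.natAdd m 0)
  let be : (Fin (m + 2) → ℂ) → ℂ := fun t => t (Fin.natAdd m 1)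
  have hLmd : Differentiable ℂ Lm := by
    rw [differentiable_pi]
    exact fun i => differentiable_apply _
  have hald : Differentiable ℂ al := differentiable_apply _
  have hbed : Differentiable ℂ be := differentiable_apply _
  obtain ⟨t₁, ht₁L, ht₁a, ht₁b⟩ : ∃ t₁ : Fin (m + 2) → ℂ, Lm t₁ = l₀ ∧ al t₁ = α₀ ∧
      be t₁ = 0 := by
    refine ⟨Fin.append l₀ ![α₀, 0], ?_, ?_, ?_⟩
    · funext i
      simp only [Lm, Fin.append_left]
    · simp only [al, Fin.append_right]
      rfl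
    · simp only [be, Fin.append_right]
      rfl
  have hext : ∀ t, Lm t = l₀ → al t = α₀ → be t = 0 → t = t₁ := by
    intro t h1 h2 h3
    funext i
    refine Fin.addCases (fun i => ?_) (fun j => ?_) i
    · have e1 := congrFun h1 i
      have e2 := congrFun ht₁L i
      exact e1.trans e2.symm
    · fin_cases j
      · exact h2.trans ht₁a.symm
      · exact h3.trans ht₁b.symm
  have hnormL : ∀ t, ‖Lm t - l₀‖ ≤ ‖t - t₁‖ := by
    intro t
    rw [pi_norm_le_iff_of_nonneg (norm_nonneg _)]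
    intro i
    have := norm_le_pi_norm (t - t₁) (Fin.castAdd 2 i)
    rw [← ht₁L]
    exact this
  have hnorma : ∀ t, ‖al t - α₀‖ ≤ ‖t - t₁‖ := by
    intro t
    have := norm_le_pi_norm (t - t₁) (Fin.natAdd m 0)
    rw [← ht₁a]
    exact this
  -- radii
  obtain ⟨δ, hδ, hroot⟩ := root_iso hn (c := α₀)
  obtain ⟨rΛ, hrΛ, hballΛ⟩ := Metric.isOpen_iff.1 hΛ l₀ hl₀
  have hα₀n : 0 < ‖α₀‖ := norm_pos_iff.2 hα₀0
  obtain ⟨ρ, hρ, hρ1, hρ2, hρ3, hρ4⟩ : ∃ ρ : ℝ, 0 < ρ ∧ ρ < rΛ ∧ ρ < r₁ ∧ ρ < δ ∧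
      ρ < ‖α₀‖ := by
    have h0 : 0 < min (min rΛ r₁) (min δ ‖α₀‖) :=
      lt_min (lt_min hrΛ hr₁) (lt_min hδ hα₀n)
    have h1 : min (min rΛ r₁) (min δ ‖α₀‖) ≤ rΛ := (min_le_left _ _).trans (min_le_left _ _)
    have h2 : min (min rΛ r₁) (min δ ‖α₀‖) ≤ r₁ := (min_le_left _ _).trans (min_le_right _ _)
    have h3 : min (min rΛ r₁) (min δ ‖α₀‖) ≤ δ := (min_le_right _ _).trans (min_le_left _ _)
    have h4 : min (min rΛ r₁) (min δ ‖α₀‖) ≤ ‖α₀‖ :=
      (min_le_right _ _).trans (min_le_right _ _)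
    exact ⟨min (min rΛ r₁) (min δ ‖α₀‖) / 2, by linarith, by linarith, by linarith, by linarith,
      by linarith⟩
  have hcl : ∀ t ∈ closedBall t₁ ρ, ‖t - t₁‖ ≤ ρ := fun t ht => by
    rw [mem_closedBall, dist_eq_norm] at ht
    exact ht
  have hmemΛ : ∀ t ∈ closedBall t₁ ρ, Lm t ∈ Λ := by
    intro t ht
    apply hballΛ
    rw [mem_ball, dist_eq_norm]
    exact lt_of_le_of_lt ((hnormL t).trans (hcl t ht)) hρ1
  have hal0 : ∀ t ∈ closedBall t₁ ρ, al t ≠ 0 := by
    intro t ht h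
    have h1 := (hnorma t).trans (hcl t ht)
    rw [h, zero_sub, norm_neg] at h1
    linarith
  -- the equations
  let Gq : Fin (n + 2 + k) → (Fin (n + 2) → ℂ) × (Fin (m + 2) → ℂ) → ℂ := fun e p =>
    Fin.addCases (fun i : Fin (n + 2) => evw p.1 (al p.2 * (i : ℕ) + be p.2) -
      (al p.2 * evw (fun j : Fin (n + 2) => (P (Lm p.2)).coeff j) (i : ℕ) + be p.2))
      (fun j => G j (Lm p.2)) e
  have hGl : ∀ (i : Fin (n + 2)) p, Gq (Fin.castAdd k i) p =
      evw p.1 (al p.2 * (i : ℕ) + be p.2) -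
      (al p.2 * evw (fun j : Fin (n + 2) => (P (Lm p.2)).coeff j) (i : ℕ) + be p.2) := by
    intro i p
    simp only [Gq, Fin.addCases_left]
  have hGr : ∀ (j : Fin k) p, Gq (Fin.natAdd (n + 2) j) p = G j (Lm p.2) := by
    intro j p
    simp only [Gq, Fin.addCases_right]
  have hsol : ∀ (x : PE n) (t : Fin (m + 2) → ℂ), Lm t ∈ Λ → (∀ e, Gq e (cfv x, t) = 0) →
      (fam 1 n x).comp (C (al t) * X + C (be t)) = C (al t) * P (Lm t) + C (be t) ∧
        ∀ j, G j (Lm t) = 0 := by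
    intro x t ht h
    refine ⟨semi_of (natDegree_fam one_ne_zero n x) (hdeg _ ht) fun i => ?_, fun j => ?_⟩
    · have h1 := h (Fin.castAdd k i)
      rw [hGl] at h1
      have h2 := sub_eq_zero.1 h1
      have h3 : evw (cfv x) = ev (fam 1 n x) := evw_coeff (natDegree_fam one_ne_zero n x)
      have h4 := evw_coeff (hdeg _ ht)
      simp only [h3, h4] at h2
      exact h2
    · have h1 := h (Fin.natAdd (n + 2) j)
      rwa [hGr] at h1
  have hOt : IsOpen {t | Lm t ∈ Λ} := hΛ.preimage hLmd.continuous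
  have hGd : ∀ e, DifferentiableOn ℂ (Gq e) (univ ×ˢ {t | Lm t ∈ Λ}) := by
    intro e
    have hLs : DifferentiableOn ℂ (fun p : (Fin (n + 2) → ℂ) × (Fin (m + 2) → ℂ) => Lm p.2)
        (univ ×ˢ {t | Lm t ∈ Λ}) := (hLmd.comp differentiable_snd).differentiableOn
    refine Fin.addCases (fun i => ?_) (fun j => ?_) e
    · have e1 : Gq (Fin.castAdd k i) = fun p => (∑ j : Fin (n + 2), p.1 j *
          (al p.2 * (i : ℕ) + be p.2) ^ (j : ℕ)) - (al p.2 *
          (∑ j : Fin (n + 2), (P (Lm p.2)).coeff j * ((i : ℕ) : ℂ) ^ (j : ℕ)) + be p.2) := by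
        funext p
        rw [hGl]
        rfl
      rw [e1]
      have ha2 : Differentiable ℂ (fun p : (Fin (n + 2) → ℂ) × (Fin (m + 2) → ℂ) => al p.2) :=
        hald.comp differentiable_snd
      have hb2 : Differentiable ℂ (fun p : (Fin (n + 2) → ℂ) × (Fin (m + 2) → ℂ) => be p.2) :=
        hbed.comp differentiable_snd
      refine DifferentiableOn.sub ?_ ?_
      · refine (Differentiable.fun_sum fun j _ => ?_).differentiableOn
        exact (differentiable_pi.1 differentiable_fst j).mul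
          (((ha2.mul_const _).add hb2).pow _)
      · refine DifferentiableOn.add (ha2.differentiableOn.mul ?_) hb2.differentiableOn
        refine DifferentiableOn.fun_sum fun j _ => ?_
        refine DifferentiableOn.mul_const ?_ _
        exact (hP j).comp hLs fun p hp => hp.2
    · have e1 : Gq (Fin.natAdd (n + 2) j) = fun p => G j (Lm p.2) := by
        funext p
        exact hGr j p
      rw [e1]
      exact (hG j).comp hLs fun p hp => hp.2
  have hmon : ∀ x : PE n, (fam 1 n x).leadingCoeff = 1 := by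
    intro x
    rw [Polynomial.leadingCoeff, natDegree_fam one_ne_zero, coeff_fam_top]
  -- uniqueness
  have huniq : ∀ t ∈ closedBall t₁ ρ, (∀ e, Gq e (cfv x₁, t) = 0) → t = t₁ := by
    intro t ht h
    have htΛ := hmemΛ t ht
    obtain ⟨h1, h2⟩ := hsol x₁ t htΛ h
    have hα := hal0 t ht
    have h3 : ∀ z, (fam 1 n x₁).eval (al t * z + be t) = al t * (P (Lm t)).eval z + be t := by
      intro z
      have h4 := congrArg (fun p : ℂ[X] => p.eval z) h1
      simp only [eval_comp, eval_add, eval_mul, eval_C, eval_X] at h4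
      exact h4
    have hl : Lm t = l₀ := by
      refine hiso (Lm t) htΛ (lt_of_le_of_lt ((hnormL t).trans (hcl t ht)) hρ2) h2
        ⟨α₀ / al t, -be t / al t, div_ne_zero hα₀0 hα, fun z => ?_⟩
      have h4 := h3 (α₀ / al t * z + -be t / al t)
      have h5 : al t * (α₀ / al t * z + -be t / al t) + be t = α₀ * z := by
        field_simp
        ring
      rw [h5, hrel₀] at h4
      have h6 : al t * (P (Lm t)).eval (α₀ / al t * z + -be t / al t) =
          al t * (α₀ / al t * (P l₀).eval z + -be t / al t) := by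
        have h7 : al t * (α₀ / al t * (P l₀).eval z + -be t / al t) =
            α₀ * (P l₀).eval z - be t := by
          field_simp
          ring
        rw [h7, h4]
        ring
      exact mul_left_cancel₀ hα h6
    have h4 := lead_of (natDegree_fam one_ne_zero n x₁) (hmon x₁) (hdeg _ htΛ) hα h1
    rw [hl, ← hα₀] at h4
    have ha : al t = α₀ := hroot _ (((hnorma t).trans (hcl t ht)).trans hρ3.le) h4
    have hb : be t = 0 := by
      apply shift_zero (f := fam 1 n x₁) (by rw [natDegree_fam one_ne_zero]; omega)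
      intro w
      have h5 := h3 (α₀⁻¹ * w)
      rw [ha, hl, ← hrel₀, ← mul_assoc, mul_inv_cancel₀ hα₀0, one_mul] at h5
      exact h5
    exact hext t hl ha hb
  have hG₁ : ∀ e, Gq e (cfv x₁, t₁) = 0 := by
    intro e
    refine Fin.addCases (fun i => ?_) (fun j => ?_) e
    · rw [hGl]
      simp only [ht₁a, ht₁b, ht₁L]
      rw [evw_coeff hd₀]
      have h3 : evw (cfv x₁) = ev (fam 1 n x₁) := evw_coeff (natDegree_fam one_ne_zero n x₁)
      rw [h3, add_zero, add_zero]
      exact sub_eq_zero.2 (hrel₀ _)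
    · rw [hGr]
      simp only [ht₁L]
      exact hG₀ j
  obtain ⟨x, t, -, htε, htρ, hE, -, J, hJ, hFE⟩ := auxE hn hvol hOt one_pos hρ
    (fun t ht => hmemΛ t ht) (fun e => (hGd e).mono fun p hp => ⟨mem_univ _, hp.2⟩) huniq hG₁ hε
  have htΛ := hmemΛ t htρ
  obtain ⟨h1, h2⟩ := hsol x t htΛ hE
  exact ⟨Lm t, htΛ, lt_of_le_of_lt (hnormL t) htε, h2, _, J, CL_conj x (hdeg _ htΛ) (hal0 t htρ) h1,
    by omega, FE_conj x (hal0 t htρ) h1 hFE⟩

end Pool.Agent.H207.GP
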